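import Pool.Agent.Q283.FG.Def
import Pool.Agent.Q44.JQ.StmG

/-!
# Project FG (helper283): statements of the parts, linear algebra, tables, classes

See `Stm1.lean` for the goal.  A pair `(a, b)` of classes modulo squares is a vector with values in `U2 = E[2]`: `a = ∏ π_j^(x_j.1) mon u δ.1`, `b = ∏ π_j^(x_j.2) mon u δ.2` up to squares; labels
`h j = φ_j = (sy (q j) (u l))_l`, symbols `N p q = sy (q p) (π (q q))`, `u t₀ = -1`.  The data `djS t₀ c w 𝓛 : Q44.JQ.Dj (Fin f) U2` of a curve; everything `Q44.JQ.*` is proved over any finite set `s` of labels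
(`Q44.JQ.Sel`, `Rec`, `Dj.Ok`, `Adj2`, `Q44.JQ.F.laj2 : S_LAJ2` in `Pool/Agent/Q44/JQ/F/Base.lean`).
-/

set_option autoImplicit false
set_option linter.unusedVariables false

namespace Pool.Agent.Q283.FG

open NumberField IsDedekindDomain Filter Topology Finset WeierstrassCurve Module
open Pool.Agent.Q283.LQ (Sm Box Nest nS)
open Pool.Agent.Q7.LK
open Pool.Agent.Q283.FT (U2 om crv Rt twi df Cov HasN2 AX Gd LocP Dcl)
open Q44.JQ (lawc)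
open scoped Classical

/-! ## Linear algebra -/

/-- JOB DJS (template: `Pool.Agent.Q164.FT.djs`). `om` is alternating and nondegenerate, the operators are self-adjoint up to the sign; the quadratic form.
Proof.  Components: `opS t₀ c w φ` has the matrix `(α + w) 1 + [[s, α + β], [α + γ + s, 0]]`, `α = dot φ (c 2)`, `β = dot φ (c 1)`, `γ = dot φ (c 0)`, `s = φ t₀`; `decide` over `ZMod 2` after generalizing the values. -/
def S_DJS : Prop := ∀ (f : ℕ) (t₀ : Fin f) (c : Fin 3 → Fin f → ZMod 2) (w : Fin f → ZMod 2)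
  (𝓛 : Submodule (ZMod 2) ((Fin f → U2) × (Fin f → U2))), (djS t₀ c w 𝓛).Sym ∧
    (∀ x, (∀ y, (djS t₀ c w 𝓛).ω x y = 0) → x = 0) ∧
    ∀ y : (Fin f → U2) × (Fin f → U2), (djS t₀ c w 𝓛).q y =
      dot (fun t => (y.2 t).1) (fun t => (y.1 t).2) + dot (fun t => (y.2 t).2) (fun t => (y.1 t).1) +
        (y.2 t₀).1 * (y.2 t₀).2 +
        dot (fun t => (y.2 t).1) (c 0 + c 2) + (y.2 t₀).1 + dot (fun t => (y.2 t).2) (c 1 + c 2)

/-- JOB CLE (template: `Pool.Agent.Q223.FT.cle`). A totally singular subspace has at most `4^f` elements.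
Proof.  The polar form `dot y₂₁ y'₁₂ + dot y'₂₁ y₁₂ + dot y₂₂ y'₁₁ + dot y'₂₂ y₁₁ + (y₂₁ t₀ y'₂₂ t₀ + y'₂₁ t₀ y₂₂ t₀)` is nondegenerate (substitute `y₁₂ ↦ y₁₂ + ..`), `dim = 4 f`. -/
def S_CLE : Prop := ∀ (f : ℕ) (t₀ : Fin f) (c : Fin 3 → Fin f → ZMod 2) (w : Fin f → ZMod 2)
  (𝓛 : Submodule (ZMod 2) ((Fin f → U2) × (Fin f → U2))), (∀ y ∈ 𝓛, (djS t₀ c w 𝓛).q y = 0) → Nat.card 𝓛 ≤ 4 ^ f

/-- JOB IRR (template: `Pool.Agent.Q198.FT.irr`). The operators of one curve generate all endomorphisms.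
Proof.  Modulo scalars the operators are `[[s, a], [b, 0]]`, `a = dot φ (c 1 + c 2)`, `b = dot φ (c 0 + c 2) + φ t₀`, `s = φ t₀`: three functionals `a, b, s`, all different from `0`, `a + b + s ≠ 0` (as `c 0 ≠ c 1`), not all equal.  Independent: clear.
`a = b`: `E₁₁` and `E₁₂ + E₂₁` (some `φ` with `(s, a) = (1, 0)`, some with `(0, 1)`); `a = s`: `E₁₁ + E₁₂` and `E₂₁`; `b = s`: `E₁₁ + E₂₁` and `E₁₂`; each pair generates everything. -/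
def S_IRR : Prop := ∀ (f : ℕ) (t₀ : Fin f) (c : Fin 3 → Fin f → ZMod 2) (w : Fin f → ZMod 2),
  c 1 ≠ c 2 → c 0 ≠ c 1 → c 0 + c 2 ≠ Pi.single t₀ 1 → ¬ (c 0 = c 2 ∧ c 1 + c 2 = Pi.single t₀ 1) →
  Algebra.adjoin (ZMod 2) (Set.range fun φ : Fin f → ZMod 2 => (opS t₀ c w φ : Module.End (ZMod 2) U2)) = ⊤

/-- JOB ISO (templates: `Pool.Agent.Q214.FT.iso`, `Pool/Agent/Q153/JQ/ISO1.lean`). Isomorphisms of the modules of two curves.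
Proof.  With `P 0 = (0, 1)`, `P 1 = (1, 0)`, `P 2 = (1, 1)`: `opS φ (P i) = dot φ (cc i j) P l + dot φ (cc i l) P j + dot φ w P i` for `{i, j, l} = {0, 1, 2}`; `g` permutes the `P i` (`g (P i) = P (σ i)`), compare coefficients for
`φ = Pi.single t 1`. -/
def S_ISO : Prop := ∀ (f : ℕ) (t₀ : Fin f) (c c' : Fin 3 → Fin f → ZMod 2) (w : Fin f → ZMod 2),
  (∃ g : U2 ≃ₗ[ZMod 2] U2, ∀ φ x, g (opS t₀ c w φ x) = opS t₀ c' w φ (g x)) →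
  ∃ σ : Equiv.Perm (Fin 3), ∀ i j, i ≠ j → cc t₀ c i j = cc t₀ c' (σ i) (σ j)

/-- JOB ADJ (uses `S_IRR`, `S_ISO`, `Pool.Agent.Q153.JQ.t_ADJ0 : Q44.JQ.S_ADJ0`; template: `Pool.Agent.Q277.FT.adj`). The operators of several curves. -/
def S_ADJ : Prop := ∀ (f : ℕ) (κ : Type) [Fintype κ] (t₀ : Fin f) (c : κ → Fin 3 → Fin f → ZMod 2) (w : Fin f → ZMod 2)
  (𝓛 : κ → Submodule (ZMod 2) ((Fin f → U2) × (Fin f → U2))),
  (∀ k, c k 1 ≠ c k 2 ∧ c k 0 ≠ c k 1 ∧ c k 0 + c k 2 ≠ Pi.single t₀ 1 ∧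
    ¬ (c k 0 = c k 2 ∧ c k 1 + c k 2 = Pi.single t₀ 1)) →
  (∀ k k', k ≠ k' → ¬ ∃ σ : Equiv.Perm (Fin 3), ∀ i j, i ≠ j → cc t₀ (c k) i j = cc t₀ (c k') (σ i) (σ j)) →
  Q44.JQ.Adj2 (V := fun _ : κ => U2) fun k => djS t₀ (c k) w (𝓛 k)

/-! ## Tables -/

/-- JOB TBF (uses `Q44.JQ.F.laj2 : Q44.JQ.S_LAJ2`; template: `Pool.Agent.Q96.FT.tbf`). The joint law for fixed labels.
Proof.  As in FT.  The block `b.N t₀ α` has `N i j = ext α i j + [j < i] h_i(t₀) h_j(t₀)`, here `NG t₀ (φ, t) i j = t (i, j) + φ_i(t₀) φ_j(t₀)` for `i < j` and `= t (j, i)` for `j < i`: the bijection `α (i, j) = t (i, j) + φ_i(t₀) φ_j(t₀)`. -/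
def S_TBF : Prop := ∀ (f : ℕ) (κ : Type) [Fintype κ] (t₀ : Fin f) (D : κ → Q44.JQ.Dj (Fin f) U2) (ρ : Fin f → ZMod 2),
  (∀ l, (D l).s₀ = t₀) → (∀ l, (D l).Ok ρ) → Q44.JQ.Adj2 (V := fun _ : κ => U2) D → ∀ (r : κ → ℕ) (ε : ℝ), 0 < ε →
  ∃ R : ℕ, ∀ (k : ℕ) (φ : Fin k → Fin f → ZMod 2), ∑ j, φ j = ρ → (∀ χ, R ≤ (univ.filter fun i => φ i = χ).card) →
    |((univ.filter fun t : {x : Fin k × Fin k // x.1 < x.2} → ZMod 2 => ∀ l, nSelG (D l) (φ, t) = 4 * 2 ^ r l).card : ℝ) -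
      (∏ l, lawc ((finrank (ZMod 2) (D l).pm : ℕ) : ZMod 2) (r l)) *
        (Fintype.card ({x : Fin k × Fin k // x.1 < x.2} → ZMod 2) : ℝ)| ≤
      ε * (Fintype.card ({x : Fin k × Fin k // x.1 < x.2} → ZMod 2) : ℝ)

/-- JOB TBL (uses `FT.S_LBS` (proved `Pool.Agent.Q214.FT.lbs`), `S_TBF`; template: `Pool.Agent.Q96.FT.tbl`). The joint law for the tables.  The same proof. -/
def S_TBL : Prop := ∀ (f : ℕ) (κ : Type) [Fintype κ] (t₀ : Fin f) (D : κ → Q44.JQ.Dj (Fin f) U2) (ρ : Fin f → ZMod 2),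
  (∀ l, (D l).s₀ = t₀) → (∀ l, (D l).Ok ρ) → Q44.JQ.Adj2 (V := fun _ : κ => U2) D → ∀ (r : κ → ℕ) (ε : ℝ), 0 < ε →
  ∃ k0 : ℕ, ∀ k, k0 ≤ k →
    |((univ.filter fun τ : Tab 2 f k => ∑ j, (1 : ZMod 2) • τ.1 j = ρ ∧ ∀ l, nSelG (D l) τ = 4 * 2 ^ r l).card : ℝ) -
      (∏ l, lawc ((finrank (ZMod 2) (D l).pm : ℕ) : ZMod 2) (r l)) *
        ((univ.filter fun τ : Tab 2 f k => ∑ j, (1 : ZMod 2) • τ.1 j = ρ).card : ℝ)| ≤
      ε * ((univ.filter fun τ : Tab 2 f k => ∑ j, (1 : ZMod 2) • τ.1 j = ρ).card : ℝ)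

/-- JOB TPA (uses `Q44.JQ.S_PAR0`, `Q44.JQ.S_ID`, proved: `Pool.Agent.Q261.JQ.t_PAR0` in `Pool/Agent/Q261/JQ/PAR0.lean`; template: `Pool.Agent.Q277.FT.tpa`). The number of the solutions is a power of `2` with an exponent of the given parity.
Proof.  `Rec`: for `p < q`, `NG t₀ τ p q = τ.2 (p, q) + τ.1 p t₀ * τ.1 q t₀` and `NG t₀ τ q p = τ.2 (p, q)`. -/
def S_TPA : Prop := ∀ (f : ℕ) (D : Q44.JQ.Dj (Fin f) U2) (ρ : Fin f → ZMod 2), D.Ok ρ → ∀ (k : ℕ) (τ : Tab 2 f k),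
  ∃ n : ℕ, nSelG D τ = 2 ^ n ∧ ((n : ℕ) : ZMod 2) = ((finrank (ZMod 2) D.pm : ℕ) : ZMod 2)

/-- JOB TUB (template: `Pool.Agent.Q65.FT.tub`; `Q44.JQ.S_PROB`, `Q44.JQ.S_ORT` are proved, see `Pool/Agent/Q44/JQ/F/Base.lean`). The mean number of the solutions is bounded for all labels.  The same proof, with the sign. -/
def S_TUB : Prop := ∀ f : ℕ, ∃ C : ℝ, ∀ (t₀ : Fin f) (c : Fin 3 → Fin f → ZMod 2) (w : Fin f → ZMod 2)
  (𝓛 : Submodule (ZMod 2) ((Fin f → U2) × (Fin f → U2))) (k : ℕ) (φ : Fin k → Fin f → ZMod 2),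
  ∑ t : {x : Fin k × Fin k // x.1 < x.2} → ZMod 2, (nSelG (djS t₀ c w 𝓛) (φ, t) : ℝ) ≤
    C * (Fintype.card ({x : Fin k × Fin k // x.1 < x.2} → ZMod 2) : ℝ)

/-! ## The classes at the small places and at the real places -/

/-- JOB SBM (uses `LK.S_BAS`; template: `Pool.Agent.Q150.FT.sbm`). The subspace of the classes with the conditions.  The same proof, with the real places. -/
def S_SBM : Prop := ∀ (F : Type) [Field F] [NumberField F] (ζ : F), IsPrimitiveRoot ζ 2 →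
  ∀ (y f : ℕ) (u r : Fin f → F) (π : HeightOneSpectrum (𝓞 F) → F) (g : (Fin f → ZMod 2) → (Fin f → ZMod 2) → ZMod 2),
  Bs ζ y f u r π g →
  ∀ (A : HeightOneSpectrum (𝓞 F) → F → F → Prop) (R : (F →+* ℝ) → F → F → Prop), LocR y A R →
  ∃ 𝓛 : Submodule (ZMod 2) ((Fin f → U2) × (Fin f → U2)), Mem y u r A R 𝓛

/-- JOB CGE (uses `LK.S_BAS`, `S_APX` of `Stm1.lean` (add it as a hypothesis `hAPX` with the statement `S_APX`); template: `Pool.Agent.Q154.FT.cge`). The number of the classes.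
Proof.  As in FT, with `S_APX`; for every real place there are two choices, `(1, 1)` and the pair `(a, b)` of the hypothesis (only the signs matter: `rmul`, `rpos`); different choices give different classes (`Nr y`).  The number of the
`φ : F →+* ℝ` is `nrRealPlaces F` (see the proof of `LQ.S_EE`, `Pool/Agent/Q151/LQ/EE.lean`). -/
def S_CGE : Prop := ∀ (F : Type) [Field F] [NumberField F] (ζ : F), IsPrimitiveRoot ζ 2 →
  ∀ (y f : ℕ) (u r : Fin f → F) (π : HeightOneSpectrum (𝓞 F) → F) (g : (Fin f → ZMod 2) → (Fin f → ZMod 2) → ZMod 2),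
  Bs ζ y f u r π g → {v : HeightOneSpectrum (𝓞 F) | Sm y v}.Finite →
  ∀ (A : HeightOneSpectrum (𝓞 F) → F → F → Prop) (R : (F →+* ℝ) → F → F → Prop), LocR y A R →
  ∀ 𝓛 : Submodule (ZMod 2) ((Fin f → U2) × (Fin f → U2)), Mem y u r A R 𝓛 → ∀ n : HeightOneSpectrum (𝓞 F) → ℕ,
  (∀ v, Sm y v → ∃ B : Finset (F × F), 2 ^ n v ≤ B.card ∧ (∀ b ∈ B, A v b.1 b.2) ∧
    ∀ b ∈ B, ∀ b' ∈ B, b ≠ b' → ¬ (Lpw 2 v (b.1 / b'.1) ∧ Lpw 2 v (b.2 / b'.2))) →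
  (∀ φ : F →+* ℝ, ∃ a b : F, R φ a b ∧ ¬ (0 < φ a ∧ 0 < φ b)) →
  2 ^ (∑ᶠ v : {v : HeightOneSpectrum (𝓞 F) // Sm y v}, n v.1 + InfinitePlace.nrRealPlaces F) ≤ Nat.card 𝓛

/-- JOB SNG (uses `S_DJS`, `LK.S_BAS`; template: `Pool.Agent.Q31.FT.sng`). The subspace is singular.
Proof.  As in FT: the classes of `-(df e 0 * df e 2)` and `df e 1 * df e 2` are `(0, c 0 + c 2 + e_(t₀))` and `(0, c 1 + c 2)` (`u t₀ = -1`). -/
def S_SNG : Prop := ∀ (F : Type) [Field F] [NumberField F] (ζ : F), IsPrimitiveRoot ζ 2 →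
  ∀ (t : HeightOneSpectrum (𝓞 F) → F → F → ZMod 2) (s : (F →+* ℝ) → F → F → ZMod 2), Hb ζ t s →
  ∀ (y f : ℕ) (t₀ : Fin f) (u r : Fin f → F) (π : HeightOneSpectrum (𝓞 F) → F), Bs ζ y f u r π (gs t₀) →
  Frm t s y u r (gs t₀) → u t₀ = -1 → {v : HeightOneSpectrum (𝓞 F) | Sm y v}.Finite →
  ∀ (e : Fin 3 → F) (c : Fin 3 → Fin f → ZMod 2), Rt e → Dcl u e c →
  ∀ (A : HeightOneSpectrum (𝓞 F) → F → F → Prop) (R : (F →+* ℝ) → F → F → Prop), LocR y A R →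
  (∀ v a b, Sm y v → A v a b → t v a b + t v a (-(df e 0 * df e 2)) + t v b (df e 1 * df e 2) = 0) →
  (∀ φ a b, R φ a b → s φ a b + s φ a (-(df e 0 * df e 2)) + s φ b (df e 1 * df e 2) = 0) →
  ∀ 𝓛 : Submodule (ZMod 2) ((Fin f → U2) × (Fin f → U2)), Mem y u r A R 𝓛 →
  ∀ w : Fin f → ZMod 2, ∀ z ∈ 𝓛, (djS t₀ c w 𝓛).q z = 0

/-- JOB TRS (uses `LK.S_BAS`; template: `Pool.Agent.Q79.FT.trs`). The torsion.
Proof.  As in FT: `x = (0, 1)`: the pair `tc (twi D0 e) 0`; `x = (1, 0)`: `tc (twi D0 e) 1`; `x = (1, 1)`: `tc (twi D0 e) 2`; `x = 0`: `(1, 1)`; their classes are `((opS t₀ c w (Pi.single t 1) x)_t, (ψ t • x)_t)` (`u t₀ = -1`). -/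
def S_TRS : Prop := ∀ (F : Type) [Field F] [NumberField F] (ζ : F), IsPrimitiveRoot ζ 2 →
  ∀ (y f : ℕ) (t₀ : Fin f) (u r : Fin f → F) (π : HeightOneSpectrum (𝓞 F) → F), Bs ζ y f u r π (gs t₀) → u t₀ = -1 →
  ∀ (e : Fin 3 → F) (c : Fin 3 → Fin f → ZMod 2), Rt e → Dcl u e c →
  ∀ (D0 : F) (ψ w : Fin f → ZMod 2), D0 ≠ 0 → Nr y (D0 * mon r ψ * mon u w) →
  ∀ (A : HeightOneSpectrum (𝓞 F) → F → F → Prop) (R : (F →+* ℝ) → F → F → Prop),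
  (∀ v a b, Sm y v → TX v (twi D0 e) a b → A v a b) →
  (∀ φ a b, 0 < φ a → 0 < φ b → R φ a b) →
  (∀ φ l, R φ (tc (twi D0 e) l).1 (tc (twi D0 e) l).2) →
  (∀ φ a b a' b', R φ a b → 0 < φ a' → 0 < φ b' → R φ (a * a') (b * b')) →
  ∀ 𝓛 : Submodule (ZMod 2) ((Fin f → U2) × (Fin f → U2)), Mem y u r A R 𝓛 →
  ∀ x : U2, ((fun t => opS t₀ c w (Pi.single t 1) x), (fun t => ψ t • x)) ∈ 𝓛

/-- JOB SXX (uses `LK.S_BAS`, `S_SH1` of `Stm1.lean`; template: `Pool.Agent.Q150.FT.sxx`). The classes are the solutions of the table.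
Proof.  As in FT.  For `twi D e` at `q p`: `TX` with `tc (twi D e) l`; `-1 = u t₀` has the symbol `φ_p t₀`; `sy (q p) (π (q q)) = NG t₀ τ p q` for `q ≠ p` (`Bs.rcp` with `gs t₀`).  The real conditions `R φ` are part of `Mem`. -/
def S_SXX : Prop := ∀ (F : Type) [Field F] [NumberField F] (ζ : F), IsPrimitiveRoot ζ 2 →
  ∀ (y f : ℕ) (t₀ : Fin f) (u r : Fin f → F) (π : HeightOneSpectrum (𝓞 F) → F), Bs ζ y f u r π (gs t₀) → u t₀ = -1 →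
  ∀ (e : Fin 3 → F) (c : Fin 3 → Fin f → ZMod 2), Rt e → Dcl u e c →
  ∀ (A : HeightOneSpectrum (𝓞 F) → F → F → Prop) (R : (F →+* ℝ) → F → F → Prop),
  ∀ 𝓛 : Submodule (ZMod 2) ((Fin f → U2) × (Fin f → U2)), Mem y u r A R 𝓛 →
  ∀ (D0 : F) (ψ w : Fin f → ZMod 2), D0 ≠ 0 → Nr y (D0 * mon r ψ * mon u w) →
  ∀ (k : ℕ) (q : Fin k → HeightOneSpectrum (𝓞 F)), Function.Injective q → (∀ i, ¬ Sm y (q i)) →
  ∀ τ : Tab 2 f k, Tb ζ u π τ q → ∀ D : F, FR y D0 q D →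
  ∀ N : ℕ, HasN2 (CondP y A R e D) N ↔ N = nSelG (djS t₀ c w 𝓛) τ

end Pool.Agent.Q283.FG
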