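import Pool.Agent.Q283.FG.Def
import Pool.Agent.Q283.EN.Stm

/-!
# Project FG (helper283): statements of the parts, the engine

GOAL.  The main theorem of project FT (exact joint law of the 2-Selmer groups of the twists of elliptic curves with full 2-torsion) for ALL number fields.  FT has the hypothesis
`i ∈ F`; here `F` is any number field in which `-1` is not a square.  New are: the real places, and the sign (`-1` is a nontrivial class).  The linear algebra with the sign is project JQ of helper44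
(`Q44.JQ.laj2 : Q44.JQ.S_LAJ2` in `Pool/Agent/Q44/JQ/F/Base.lean`).  Nearly every job is an ADAPTATION of the proof of the job of the same name of project FT or EN: copy it and change it.
All statements of projects LK (`S_BAS`, `S_CPL`, `S_CHEB`, `S_SU`; `Pool/Agent/Q7/LK/Stm.lean`) used here hold for `p = 2` and every `F`.
-/

set_option autoImplicit false

namespace Pool.Agent.Q283.FG

open NumberField IsDedekindDomain Filter Topology Finset
open Pool.Agent.Q283.LQ (Sm Box Nest nS)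
open Pool.Agent.Q7.LK
open Pool.Agent.Q283.FT (U2 om crv Rt twi df Cov HasN2 AX Gd LocP Dcl)
open scoped Classical

/-- JOB APX. Weak approximation with signs.
Proof.  The finite places: as in the proof of `LK.S_HS1` (`Pool/Agent/Q65/LK`) there is `x0 ∈ F^*` with the conditions.  Signs: `F = ℚ(θ)`, the `φ θ` are different real numbers, so there is a polynomial over `ℚ` with prescribed signs at
all of them (interpolation over `ℝ`, then rational coefficients close to the real ones), `γ` = its value at `θ`.  `a = x0 + n N^m γ'`, `γ'` an integral multiple of `γ` by a square of an integer, `N^m` very divisible by all `v ∈ S`, `n` a large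
natural number.  (Other ways: density of `F` in its completions, if you find it in Mathlib or in the package.) -/
def S_APX : Prop := ∀ (F : Type) [Field F] [NumberField F] (S : Finset (HeightOneSpectrum (𝓞 F))) (k : ℕ)
  (b : HeightOneSpectrum (𝓞 F) → F) (c : (F →+* ℝ) → F), (∀ v, b v ≠ 0) → (∀ φ, c φ ≠ 0) →
  ∃ a : F, a ≠ 0 ∧ (∀ v ∈ S, v.valuation F (a / b v - 1) < WithZero.exp (-(k : ℤ))) ∧
    ∀ φ : F →+* ℝ, 0 < φ (a * c φ)

/-- JOB HSA (uses `LK.S_BAS`). Artin's law of reciprocity for `F(√c)`.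
Proof.  The proof of `Pool.Agent.Q68.EN.hs1a_gen` (`Pool/Agent/Q68/EN/HS1A2.lean`); there the hypothesis `hnr : ∀ x : F, Pos x` is used only for the `x` of the statement, where it is now a hypothesis. -/
def S_HSA : Prop := ∀ (F : Type) [Field F] [NumberField F] (ζ : F), IsPrimitiveRoot ζ 2 →
  ∀ c : F, c ≠ 0 → ¬ IsPow 2 c →
  {v : HeightOneSpectrum (𝓞 F) | Dp 2 v ∨ vl 2 v c ≠ 0}.Finite ∧ ∃ k : ℕ, ∀ x : F, x ≠ 0 →
    (∀ v : HeightOneSpectrum (𝓞 F), (Dp 2 v ∨ vl 2 v c ≠ 0) → v.valuation F (x - 1) < WithZero.exp (-(k : ℤ))) →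
    (∀ φ : F →+* ℝ, 0 < φ x) →
    {v : HeightOneSpectrum (𝓞 F) | vl 2 v x ≠ 0}.Finite ∧
    ∑ᶠ v : {v : HeightOneSpectrum (𝓞 F) // ¬ (Dp 2 v ∨ vl 2 v c ≠ 0)}, vl 2 v.1 x * sy 2 ζ v.1 c = 0

/-- JOB HS1 (uses `LK.S_BAS`, `S_APX`, `S_HSA`; template: `Pool.Agent.Q190.EN.hs12` in `Pool/Agent/Q190/EN/Hs12.lean`, docstring of `LK.S_HS1`). The local symbols `(·, c)_v` for one `c`.
Proof.  `c` a square: `τ = 0`, `σ = 0`.  Otherwise `R`, `k` from `S_HSA`.  `v ∉ R`: `τ_v(a) = vl v a * sy v c`.  `v ∈ R`: choose (`S_APX`) `e` with `e / a` close to `1` at `v`, `e` close to `1` at the other places of `R`, `e` positive at all real places,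
`τ_v(a) = ∑_(w ∉ R) vl w e * sy w c` (independent of `e` by `S_HSA`).  `φ` real: `e` close to `1` at all places of `R`, with the sign of `a` at `φ` and positive at the other real places, `σ_φ(a) = ∑_(w ∉ R) vl w e * sy w c`.  The product formula:
`a` divided by the product of all these `e`.  Norms `n = x² - c z²`: `v ∉ R`: if `sy v c ≠ 0` then `vl v n = 0` (`c` is not a square modulo `v`; multiply `x`, `z` so that they are integral at `v` and not both divisible).  `v ∈ R` (or `φ` real): choose `x'`, `z'`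
close to `x`, `z` at `v`, close to `1`, `0` at the other places of `R` (and `z'` so small at the real places, respectively `x'`, `z'` so close to `x`, `z` at `φ`, that `n' = x'² - c z'²` is positive at the other real places and has
the sign of `n` at `φ`: multiply all by a large natural number congruent to `1`, or use `x' = x'' + N m`), then `τ_v(n) = τ_v(n')` is the sum over the `w ∉ R`, which vanishes. -/
def S_HS1 : Prop := ∀ (F : Type) [Field F] [NumberField F] (ζ : F), IsPrimitiveRoot ζ 2 → ∀ c : F, c ≠ 0 →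
  ∃ (τ : HeightOneSpectrum (𝓞 F) → F → ZMod 2) (σ : (F →+* ℝ) → F → ZMod 2),
  (∀ v a b, a ≠ 0 → b ≠ 0 → τ v (a * b) = τ v a + τ v b) ∧
  (∀ φ a b, a ≠ 0 → b ≠ 0 → σ φ (a * b) = σ φ a + σ φ b) ∧
  (∀ a, a ≠ 0 → {v | τ v a ≠ 0}.Finite ∧ ∑ᶠ v, τ v a + ∑ᶠ φ, σ φ a = 0) ∧
  (∀ v a, Lpw 2 v a → τ v a = 0) ∧ (∀ (φ : F →+* ℝ) (a : F), 0 < φ a → σ φ a = 0) ∧
  (∀ v, ¬ Dp 2 v → vl 2 v c = 0 → ∀ a, a ≠ 0 → τ v a = vl 2 v a * sy 2 ζ v c) ∧
  ∀ x z : F, x ^ 2 - c * z ^ 2 ≠ 0 → (∀ v, τ v (x ^ 2 - c * z ^ 2) = 0) ∧ ∀ φ, σ φ (x ^ 2 - c * z ^ 2) = 0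

/-- JOB HIL (uses `LK.S_BAS`, `S_APX`, `S_HS1`; template: `Pool.Agent.Q238.EN.hs22` in `Pool/Agent/Q238/EN/HS22.lean`, docstring of `LK.S_HS2`). The Hilbert symbols.
Proof.  `t v a c = τ v a`, `s φ a c = σ φ a` for the families of `c` (`0` for `c = 0`).  Additivity in `c`: two families with the properties (additive, product formula, `pow`, positivity) which agree at almost all `v` are equal (approximation with
`S_APX`: `e` close to `a` at one place, close to `1` and positive at the others).  `nrm`: `S_HS1`.  Symmetry: `- a = 0² - a 1²`, so `t v (-a) a = 0`; `0 = t v (-a c) (a c) = t v (-a) a + t v (-a) c + t v c a + t v c c = t v a c + t v c a` (the same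
for `s`). -/
def S_HIL : Prop := ∀ (F : Type) [Field F] [NumberField F] (ζ : F), IsPrimitiveRoot ζ 2 →
  ∃ (t : HeightOneSpectrum (𝓞 F) → F → F → ZMod 2) (s : (F →+* ℝ) → F → F → ZMod 2), Hb ζ t s

/-- JOB BSE (uses `LK.S_BAS`, `LK.S_CHEB`, `Pool.Agent.Q283.LQ.t_BASE : LQ.S_BASE`, `Pool.Agent.Q283.LQ.t_LOC : LQ.S_LOC`). The bases, for the Hilbert symbols `t`, `s`.
Proof.  `u, r, π` from `LQ.t_BASE` (any number field; `LQ.Od v a` for `a ≠ 0` is `vl 2 v a = 1`, `LQ.Lsq v` is `Lpw 2 v`, `LQ.Nn y` is `Nr y`, `LQ.sb v a = sy 2 ζ v a` for `v ∤ 2`, `vl 2 v a = 0`, `LQ.mon = LK.mon 2`; see `Pool/Agent/Q190/EN/Loc2.lean` for these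
translations).  Let `T(a, b) = ∑_(Sm y v) t v a b + ∑ s φ a b`, bilinear, symmetric, `T(a, b) = 0` if `Nr y a`.  `g φ φ' = T(mon r φ, mon r φ')`.  `rcp`: for `q ≠ q'` the product formula `Hb.sum` for `π q`, `π q'` (`Hb.unr`, `Hb.sym`, `po`) gives
`T(π q, π q') = sy q (π q') + sy q' (π q)`, and `π q`, `(mon r φ_q)⁻¹` have the same class (`pc`).  `Frm`: the product formula gives `T(u l, u l') = 0`, `T(π q, mon u c) = sy q (mon u c) = dot φ_q c`; for every `φ` there is a `q` with `φ_q = φ`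
(`LK.S_CHEB`, `ind`), so `T(mon r φ, mon u c) = dot φ c`; expand.  `f`: `≥` from `LQ.t_BASE`, `≤`: the `2^(2f)` elements `mon r φ mon u c` are inequivalent (`cls`), `LQ.t_LOC`, `[F : ℚ] = r1 + 2 r2`. -/
def S_BSE : Prop := ∀ (F : Type) [Field F] [NumberField F] (ζ : F), IsPrimitiveRoot ζ 2 →
  ∀ (t : HeightOneSpectrum (𝓞 F) → F → F → ZMod 2) (s : (F →+* ℝ) → F → F → ZMod 2), Hb ζ t s → ∃ y0 : ℕ, ∀ y, y0 ≤ y →
  ∃ (f : ℕ) (u r : Fin f → F) (π : HeightOneSpectrum (𝓞 F) → F) (g : (Fin f → ZMod 2) → (Fin f → ZMod 2) → ZMod 2),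
    Bs ζ y f u r π g ∧ Frm t s y u r g ∧
    f = InfinitePlace.nrRealPlaces F + InfinitePlace.nrComplexPlaces F + nS F y ∧
    {v : HeightOneSpectrum (𝓞 F) | Sm y v}.Finite

/-- JOB G0 (uses `LK.S_BAS`; template: `Pool.Agent.Q149.FT.g0` in `Pool/Agent/Q149/FT/G0.lean`). Good bases: one `u` is `-1`, and the reciprocity is the classical one.
Proof.  (1) `-1 * mon u ς` is a square for some `ς ≠ 0` (`full`; `-1` is not a square); choose `t₀` with `ς t₀ = 1`, `u' t₀ = -1`, `u' l = u l` otherwise; `φ'_q = (sy q (u' l))_l` is `φ_q` with the component at `t₀` replaced by `dot φ_q ς`; `r' l = r l * r t₀ ^ (ς l)`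
for `l ≠ t₀`, `r' t₀ = r t₀` (so that `mon r' φ'` is `mon r φ` up to squares), `mon u' c'` is `mon u c` up to squares with `c = c'` off `t₀` .. (`c = c'_(t₀) ς + ∑_(l ≠ t₀) c'_l e_l`).  (2) `g` is bilinear (`Frm`) and symmetric, and `g φ φ = φ t₀` (for the new basis): `T(a, a) = T(a, -1)`
(`Hb.nrm`: `- a = 0² - a 1²`; for the real places the product formula.. or: `Hb.sum` for `(a, a)` and `(a, -1)` and `Hb.nrm`, with `s φ a a = s φ a (-1)` from `Hb.rpos`, `rmul`: both depend only on signs), and `T(a, -1) = dot x.1 e_(t₀)` by `Frm`.  So `g - gs t₀` is bilinear and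
alternating; with `(β φ)_m = ∑_(l < m) (g - gs t₀) e_l e_m φ_l` it is `dot φ' (β φ) + dot φ (β φ')`; replace `π q` by `π q * mon u (β φ_q)`, `r l` by `r l * mon u (β e_l)` as in the template. -/
def S_G0 : Prop := ∀ (F : Type) [Field F] [NumberField F] (ζ : F), IsPrimitiveRoot ζ 2 → (∀ x : F, x ^ 2 ≠ -1) →
  ∀ (t : HeightOneSpectrum (𝓞 F) → F → F → ZMod 2) (s : (F →+* ℝ) → F → F → ZMod 2), Hb ζ t s →
  ∀ (y f : ℕ) (u r : Fin f → F) (π : HeightOneSpectrum (𝓞 F) → F) (g : (Fin f → ZMod 2) → (Fin f → ZMod 2) → ZMod 2),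
  Bs ζ y f u r π g → Frm t s y u r g → {v : HeightOneSpectrum (𝓞 F) | Sm y v}.Finite →
  ∃ (t₀ : Fin f) (u' r' : Fin f → F) (π' : HeightOneSpectrum (𝓞 F) → F),
    Bs ζ y f u' r' π' (gs t₀) ∧ Frm t s y u' r' (gs t₀) ∧ u' t₀ = -1

/-- JOB NST (uses `LK.S_CHEB`, `LK.S_BAS`; template: the proof of `LK.S_NEST`, see `t_NEST` in `Pool/Agent/Q7/LK/All*.lean`). Equidistribution of the tables.
Proof.  The same proof (only the fields `ue`, `ind`, `po`, `two` of the base are used). -/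
def S_NST : Prop := ∀ (F : Type) [Field F] [NumberField F] (ζ : F), IsPrimitiveRoot ζ 2 → ∀ (y f : ℕ) (u r : Fin f → F)
  (π : HeightOneSpectrum (𝓞 F) → F) (g : (Fin f → ZMod 2) → (Fin f → ZMod 2) → ZMod 2), Bs ζ y f u r π g →
  ∀ (k : ℕ) (τ : Tab 2 f k) (ε : ℝ), 0 < ε → Nest k fun X =>
    (Box y X : Set (Fin k → HeightOneSpectrum (𝓞 F))).Finite ∧
    0 < ((Box y X : Set (Fin k → HeightOneSpectrum (𝓞 F))).ncard : ℝ) ∧
    |({q ∈ (Box y X : Set (Fin k → HeightOneSpectrum (𝓞 F))) | Tb ζ u π τ q}.ncard : ℝ) /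
      ((Box y X : Set (Fin k → HeightOneSpectrum (𝓞 F))).ncard : ℝ) -
        1 / (2 : ℝ) ^ (k * f + k * (k - 1) / 2)| ≤ ε

/-- JOB SH1 (uses `LK.S_BAS`; template: the proof of `LK.S_SH1`). When does some `D` fit?
Proof.  The same proof, with the signs. -/
def S_SH1 : Prop := ∀ (F : Type) [Field F] [NumberField F] (ζ : F), IsPrimitiveRoot ζ 2 → ∀ (y f : ℕ) (u r : Fin f → F)
  (π : HeightOneSpectrum (𝓞 F) → F) (g : (Fin f → ZMod 2) → (Fin f → ZMod 2) → ZMod 2), Bs ζ y f u r π g →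
  ∀ (D0 : F) (ψ w : Fin f → ZMod 2), D0 ≠ 0 → Nr y (D0 * mon r ψ * mon u w) →
  ∀ (k : ℕ) (q : Fin k → HeightOneSpectrum (𝓞 F)), Function.Injective q → (∀ i, ¬ Sm y (q i)) →
  ∀ τ : Tab 2 f k, Tb ζ u π τ q →
  ((∃ D, FR y D0 q D) ↔ ∑ j, (1 : ZMod 2) • τ.1 j = ψ) ∧ ∀ D, FR y D0 q D → IsPow 2 (D * mon u w / ∏ j, π (q j))

/-- JOB TRF (uses `S_NST`, `S_SH1`; template: `Pool.Agent.Q265.EN.trf` in `Pool/Agent/Q265/EN/TRF.lean`). From the tables to the ensemble.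
Proof.  The same proof with `z = 1`, `p = 2`. -/
def S_TRF : Prop := ∀ (F : Type) [Field F] [NumberField F] (ζ : F), IsPrimitiveRoot ζ 2 → ∀ (y f : ℕ) (u r : Fin f → F)
  (π : HeightOneSpectrum (𝓞 F) → F) (g : (Fin f → ZMod 2) → (Fin f → ZMod 2) → ZMod 2), Bs ζ y f u r π g →
  ∀ (D0 : F) (ψ w : Fin f → ZMod 2), D0 ≠ 0 → Nr y (D0 * mon r ψ * mon u w) →
  ∀ (k : ℕ), 1 ≤ k → ∀ ε : ℝ, 0 < ε → Nest k fun X =>
    (Box y X : Set (Fin k → HeightOneSpectrum (𝓞 F))).Finite ∧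
    0 < ({q ∈ (Box y X : Set (Fin k → HeightOneSpectrum (𝓞 F))) | ∃ D, FR y D0 q D}.ncard : ℝ) ∧
    (∀ q ∈ (Box y X : Set (Fin k → HeightOneSpectrum (𝓞 F))), ∃ τ : Tab 2 f k, Tb ζ u π τ q) ∧
    ∀ P : Tab 2 f k → Prop,
      |({q ∈ (Box y X : Set (Fin k → HeightOneSpectrum (𝓞 F))) | (∃ D, FR y D0 q D) ∧
            ∃ τ, Tb ζ u π τ q ∧ P τ}.ncard : ℝ) * ((univ.filter (fun τ : Tab 2 f k => ∑ j, (1 : ZMod 2) • τ.1 j = ψ)).card : ℝ) -
        ((univ.filter (fun τ : Tab 2 f k => ∑ j, (1 : ZMod 2) • τ.1 j = ψ ∧ P τ)).card : ℝ) *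
          ({q ∈ (Box y X : Set (Fin k → HeightOneSpectrum (𝓞 F))) | ∃ D, FR y D0 q D}.ncard : ℝ)| ≤
      ε * ({q ∈ (Box y X : Set (Fin k → HeightOneSpectrum (𝓞 F))) | ∃ D, FR y D0 q D}.ncard : ℝ) *
        ((univ.filter (fun τ : Tab 2 f k => ∑ j, (1 : ZMod 2) • τ.1 j = ψ)).card : ℝ)

/-- JOB TRM (uses `S_TRF`; template: `Pool.Agent.Q65.FT.trm` in `Pool/Agent/Q65/FT/TRM.lean`). Means, from the tables to the ensemble.  The same proof. -/
def S_TRM : Prop := ∀ (F : Type) [Field F] [NumberField F] (ζ : F), IsPrimitiveRoot ζ 2 → ∀ (y f : ℕ) (u r : Fin f → F)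
  (π : HeightOneSpectrum (𝓞 F) → F) (g : (Fin f → ZMod 2) → (Fin f → ZMod 2) → ZMod 2), Bs ζ y f u r π g →
  ∀ (D0 : F) (ψ w : Fin f → ZMod 2), D0 ≠ 0 → Nr y (D0 * mon r ψ * mon u w) →
  ∀ (k : ℕ), 1 ≤ k → ∀ (n : Tab 2 f k → ℕ) (C : ℝ),
    ∑ τ ∈ univ.filter (fun τ : Tab 2 f k => ∑ j, (1 : ZMod 2) • τ.1 j = ψ), (n τ : ℝ) ≤
      C * ((univ.filter (fun τ : Tab 2 f k => ∑ j, (1 : ZMod 2) • τ.1 j = ψ)).card : ℝ) → Nest k fun X =>
    ∀ (B : Finset (Fin k → HeightOneSpectrum (𝓞 F))) (N : (Fin k → HeightOneSpectrum (𝓞 F)) → ℕ),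
      (∀ q ∈ B, q ∈ (Box y X : Set (Fin k → HeightOneSpectrum (𝓞 F)))) → (∀ q ∈ B, ∃ D, FR y D0 q D) →
      (∀ q ∈ B, ∃ τ, Tb ζ u π τ q ∧ N q = n τ) →
      ∑ q ∈ B, (N q : ℝ) ≤ (C + 1) *
        ({q ∈ (Box y X : Set (Fin k → HeightOneSpectrum (𝓞 F))) | ∃ D, FR y D0 q D}.ncard : ℝ)

end Pool.Agent.Q283.FG
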