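import Pool.Agent.Q283.FG.Def
import Pool.Agent.TH841.SH.Alg2

/-!
# Project FG (helper283): statements of the parts, the curves

See `Stm1.lean` for the goal.  As `Pool/Agent/Q283/FT/Stm3.lean`, with signs: `Cx`, `TX`, `tc` are those of `FG/Def.lean` (the class of `(e l, 0)` is `tc e l`), there is no hypothesis `i ∈ F`, and the real places are new.
-/

set_option autoImplicit false

namespace Pool.Agent.Q283.FG

open NumberField IsDedekindDomain Filter Topology Finset WeierstrassCurve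
open Pool.Agent.Q283.LQ (Sm Box Nest nS)
open Pool.Agent.Q7.LK
open Pool.Agent.TH841.SH.D (Coch Pt act Gal IsCoc IsCob LocTriv)
open Pool.Agent.TH841.NF.D (Sha IsShaCoc)
open Pool.Agent.Q283.FT (U2 om crv Rt twi df Cov HasN2 AX Gd LocP Dcl Ks)

/-! ## The Kummer map -/

/-- JOB KUA (pure algebra; template: `Pool.Agent.Q176.FT.KUA.kua`). Classes of points: existence, uniqueness, the origin, torsion.  The same proof with the signs (`-1` is not a square now:
`e 1 - e 0 = - df e 2`, `(e 1 - e 0) (e 1 - e 2) = - (df e 0 * df e 2)`, `e 2 - e 0 = - df e 1`, `e 2 - e 1 = - df e 0`). -/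
def S_KUA : Prop := ∀ (F : Type) [Field F] [CharZero F] (e : Fin 3 → F), Rt e → ∀ (L : Type) [Field L] [Algebra F L],
  (∀ P : Pt (crv e) L, ∃ a b : L, Cx e L P a b) ∧
  (∀ (P : Pt (crv e) L) (a b a' b' : L), Cx e L P a b → Cx e L P a' b' → IsSquare (a / a') ∧ IsSquare (b / b')) ∧
  (∀ (P : Pt (crv e) L) (a b s s' : L), s ≠ 0 → s' ≠ 0 → Cx e L P a b → Cx e L P (a * s ^ 2) (b * s' ^ 2)) ∧
  Cx e L 0 1 1 ∧
  ∀ (l : Fin 3), ∃ (h : ((crv e).baseChange L).toAffine.Nonsingular (algebraMap F L (e l)) 0),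
    Cx e L (Affine.Point.some (algebraMap F L (e l)) 0 h) (algebraMap F L (tc e l).1) (algebraMap F L (tc e l).2)

/-- JOB KUB (pure algebra, uses `S_KUA`; template: `Pool.Agent.Q64.FT.kub`). The class of a sum.  The same proof with the signs (see the docstring of `FT.S_KUB`). -/
def S_KUB : Prop := ∀ (F : Type) [Field F] [CharZero F] (e : Fin 3 → F), Rt e →
  ∀ (L : Type) [Field L] [Algebra F L] (P Q : Pt (crv e) L) (a b a' b' : L), Cx e L P a b → Cx e L Q a' b' →
    Cx e L (P + Q) (a * a') (b * b')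

/-- JOB KUC (pure algebra; template: `Pool.Agent.Q151.FT.kuc`). Points of trivial class are divisible by `2`.  The same proof with the signs. -/
def S_KUC : Prop := ∀ (F : Type) [Field F] [CharZero F] (e : Fin 3 → F), Rt e →
  ∀ (L : Type) [Field L] [Algebra F L] (P : Pt (crv e) L) (a b : L), Cx e L P a b → IsSquare a → IsSquare b → ∃ R, P = R + R

/-- JOB AXP (pure algebra; template: `Pool.Agent.Q238.FT.axp`). The covering and the points.  The same proof with the signs. -/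
def S_AXP : Prop := ∀ (F : Type) [Field F] [CharZero F] (e : Fin 3 → F), Rt e →
  ∀ (L : Type) [Field L] [Algebra F L] (a b : F), a ≠ 0 → b ≠ 0 →
  (Cov e L a b ↔ ∃ P : Pt (crv e) L, Cx e L P (algebraMap F L a) (algebraMap F L b))

/-! ## Local conditions -/

/-- JOB LCP (uses `S_KUA`, `S_KUB`, `S_AXP`, `LK.S_BAS`, `LK.S_CPL`; template: `Pool.Agent.Q192.FT.lcp`). Properties of the local conditions.  The same proof with the signs. -/
def S_LCP : Prop := ∀ (F : Type) [Field F] [NumberField F] (e : Fin 3 → F), Rt e → ∀ v : HeightOneSpectrum (𝓞 F),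
  (∀ a b a' b' : F, AX v e a b → AX v e a' b' → AX v e (a * a') (b * b')) ∧
  (∀ a b m m' : F, Lpw 2 v m → Lpw 2 v m' → AX v e a b → AX v e (a * m) (b * m')) ∧
  (∀ a b n : F, Lpw 2 v n → AX v e a b → AX v (twi n e) a b) ∧
  (∀ a b : F, TX v e a b → AX v e a b)

/-- JOB RLC (uses `S_KUB`, `S_AXP` or directly). The conditions at the real places.
Proof.  The signs: `RX φ e a b` iff `φ a > 0`, `φ b > 0`, or `a`, `b` have the signs of `(x - e 0, x - e 1)` for `x` between the smallest and the middle one of the three different numbers `φ (e j)`, that is: if `φ (e 0)` is the smallest `φ a > 0 > φ b`, if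
`φ (e 1)` is the smallest `φ a < 0 < φ b`, if `φ (e 2)` is the smallest `φ a < 0`, `φ b < 0`.  (`←`: such an `x` close to the middle root gives a real point; `→`: `w = 0`: all positive; `w = 1`: `x = φ (e 0) + φ a z 0²` satisfies `∏ (x - φ (e j)) ≥ 0`, so
`x ≥` the largest root or between the smallest and the middle one; if `x` is a root some `z j` vanishes, use the other two and the product.)  Everything follows by comparing signs. -/
def S_RLC : Prop := ∀ (F : Type) [Field F] [NumberField F] (e : Fin 3 → F), Rt e → ∀ φ : F →+* ℝ,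
  (∀ a b a' b' : F, RX φ e a b → RX φ e a' b' → RX φ e (a * a') (b * b')) ∧
  (∀ a b : F, 0 < φ a → 0 < φ b → RX φ e a b) ∧
  (∀ a b n : F, 0 < φ n → RX φ e a b → RX φ (twi n e) a b) ∧
  (∀ l, RX φ e (tc e l).1 (tc e l).2) ∧
  ∃ a b : F, RX φ e a b ∧ ¬ (0 < φ a ∧ 0 < φ b)

/-- JOB RSQ (uses the description of the signs in `S_RLC`). The quadratic relation at the real places.
Proof.  By `Hb.rmul`, `rsym`, `rpos` `s φ a b` depends only on the signs, `s φ a b = [φ a < 0] [φ b < 0] s φ (-1) (-1)`; three cases for the smallest root. -/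
def S_RSQ : Prop := ∀ (F : Type) [Field F] [NumberField F] (ζ : F), IsPrimitiveRoot ζ 2 →
  ∀ (t : HeightOneSpectrum (𝓞 F) → F → F → ZMod 2) (s : (F →+* ℝ) → F → F → ZMod 2), Hb ζ t s →
  ∀ e : Fin 3 → F, Rt e → ∀ (φ : F →+* ℝ) (a b : F), RX φ e a b →
    s φ a b + s φ a (-(df e 0 * df e 2)) + s φ b (df e 1 * df e 2) = 0

/-- JOB STB (template: `Pool.Agent.Q124.FT.stb`). The relation of Steinberg, with the sign.
Proof.  `- A = 0² - A 1²`, so `t v (-A) A = 0` (`Hb.nrm`) and `t v A A = t v (-1) A`.  `A / C = 1² - (B / C) 1²`, so `t v (A / C) (B / C) = 0`; expand (`t v x (1 / y) = t v x y` in characteristic `2`), `t v C C = t v C (-1)`. -/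
def S_STB : Prop := ∀ (F : Type) [Field F] [NumberField F] (ζ : F), IsPrimitiveRoot ζ 2 →
  ∀ (t : HeightOneSpectrum (𝓞 F) → F → F → ZMod 2) (s : (F →+* ℝ) → F → F → ZMod 2), Hb ζ t s →
  ∀ (v : HeightOneSpectrum (𝓞 F)),
  (∀ A : F, A ≠ 0 → t v A A = t v A (-1)) ∧
  ∀ A B C : F, A ≠ 0 → B ≠ 0 → C ≠ 0 → A + B = C → t v A B = t v A C + t v B C + t v C (-1)

/-- JOB ISQ (uses `S_KUA`, `S_AXP`, `S_STB`, `LK.S_BAS`, `LK.S_CPL`; template: `Pool.Agent.Q192.FT.isq`). The quadratic relation for the local classes, with the signs.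
Proof.  As in FT (`x₀ ∈ F` close to `x`, `A_j = x₀ - e j`, `A_2` is `A_0 A_1` up to local squares).  Write `t = t v`.  `S_STB` for `A_0 + (e 0 - e 1) = A_1`: `t A_0 A_1 = t A_0 (e 0 - e 1) + t A_1 (e 1 - e 0)`; in the same way
`t A_0 A_2 = t A_0 (e 0 - e 2) + t A_2 (e 2 - e 0)` gives (with `t A_0 A_0 = t A_0 (-1)`) `t A_0 A_1 = t A_1 (e 2 - e 0)`, and `t A_1 A_2 = t A_1 (e 1 - e 2) + t A_2 (e 2 - e 1)` gives `t A_0 A_1 = t A_0 (e 2 - e 1)`.  The sum of the three:
`t A_0 A_1 = t A_0 ((e 1 - e 0) (e 1 - e 2)) + t A_1 ((e 0 - e 1) (e 0 - e 2))`, and `(e 1 - e 0) (e 1 - e 2) = -(df e 0 * df e 2)`, `(e 0 - e 1) (e 0 - e 2) = df e 1 * df e 2`.  The points of order `2`: `tc e l`, directly with `S_STB`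
(`df e 2 + df e 0 = df e 1`). -/
def S_ISQ : Prop := ∀ (F : Type) [Field F] [NumberField F] (ζ : F), IsPrimitiveRoot ζ 2 →
  ∀ (t : HeightOneSpectrum (𝓞 F) → F → F → ZMod 2) (s : (F →+* ℝ) → F → F → ZMod 2), Hb ζ t s → ∀ e : Fin 3 → F, Rt e →
  ∀ (v : HeightOneSpectrum (𝓞 F)) (a b : F), AX v e a b →
    t v a b + t v a (-(df e 0 * df e 2)) + t v b (df e 1 * df e 2) = 0

/-- JOB VLR (template: `Pool.Agent.Q190.EN.val`, parts). Ramification at `2` and the sum of the local degrees.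
Proof.  `v(2) = exp(-m)`, `m` the ramification index (`0` if `v ∤ 2`), `N v ^ m = 2^(m f)`; `∑_(v ∣ 2) m f = [F : ℚ]` (`Pool/Agent/Q7/LK/Sum.lean`). -/
def S_VLR : Prop := ∀ (F : Type) [Field F] [NumberField F],
  (∀ v : HeightOneSpectrum (𝓞 F), ∃ m : ℕ, v.valuation F (2 : F) = WithZero.exp (-(m : ℤ)) ∧
    Ideal.absNorm v.asIdeal ^ m = 2 ^ dv 2 v) ∧
  {v : HeightOneSpectrum (𝓞 F) | dv 2 v ≠ 0}.Finite ∧ ∑ᶠ v : HeightOneSpectrum (𝓞 F), dv 2 v = Module.finrank ℚ F

/-- JOB IDP (uses `EN.S_LIX` (proved: `Pool.Agent.Q283.EN.t_LIX`), `S_VLR`; template: `Pool.Agent.Q124.FT.idp`). The local index of multiplication by `2`, points.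
Proof.  As in FT with the exponent `m` of `S_VLR` in place of `2 e'`. -/
def S_IDP : Prop := ∀ (F : Type) [Field F] [NumberField F] (v : HeightOneSpectrum (𝓞 F)) (e : Fin 3 → F),
  Rt e → (∀ j, IsIntegral ℤ (e j)) → ∃ M : Finset (Pt (crv e) (v.adicCompletion F)),
    2 ^ (dv 2 v + 2) ≤ M.card ∧ ∀ P ∈ M, ∀ Q ∈ M, P ≠ Q → ∀ R, P - Q ≠ R + R

/-- JOB IDE (uses `S_IDP`, `S_KUA`, `S_KUB`, `S_KUC`, `S_AXP`, `S_LCP`, `LK.S_BAS`, `LK.S_CPL`; template: `Pool.Agent.Q238.FT.ide`). The number of the local classes.  The same proof. -/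
def S_IDE : Prop := ∀ (F : Type) [Field F] [NumberField F] (v : HeightOneSpectrum (𝓞 F)) (e : Fin 3 → F),
  Rt e → ∃ B : Finset (F × F), 2 ^ (dv 2 v + 2) ≤ B.card ∧ (∀ b ∈ B, AX v e b.1 b.2) ∧
    ∀ b ∈ B, ∀ b' ∈ B, b ≠ b' → ¬ (Lpw 2 v (b.1 / b'.1) ∧ Lpw 2 v (b.2 / b'.2))

/-- JOB GDU (uses `S_AXP`, `S_LCP`, `S_IDE`, `LK.S_BAS`, `LK.S_CPL`; template: `Pool.Agent.Q124.FT.gdu`). Good places, even order.  The same proof. -/
def S_GDU : Prop := ∀ (F : Type) [Field F] [NumberField F] (v : HeightOneSpectrum (𝓞 F)) (e : Fin 3 → F),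
  Rt e → Gd v e → ∀ D a b : F, D ≠ 0 → a ≠ 0 → b ≠ 0 → vl 2 v D = 0 → (AX v (twi D e) a b ↔ vl 2 v a = 0 ∧ vl 2 v b = 0)

/-- JOB GDR (uses `S_LCP`, `LK.S_CPL`; template: `Pool.Agent.Q38.FT.gdr`). Good places, odd order.  The same proof with the signs. -/
def S_GDR : Prop := ∀ (F : Type) [Field F] [NumberField F] (v : HeightOneSpectrum (𝓞 F)) (e : Fin 3 → F),
  Rt e → Gd v e → ∀ D a b : F, D ≠ 0 → vl 2 v D ≠ 0 → (AX v (twi D e) a b ↔ TX v (twi D e) a b)

/-! ## Cocycles (`Ks` is that of `FT/Def2.lean`; `FT.S_KSA`, `FT.S_KSB`, `FT.S_MWR`, `FT.S_TRV` are proved for every number field) -/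

/-- JOB KSL (uses `S_AXP`; template: `Pool.Agent.Q162.FT.ksl`, `coh_iff` there). Local triviality and the covering, with the real places.
Proof.  `coh_iff` with the signs holds for every field `K` over `F` of characteristic `0`: `LocTriv (crv e) K f ↔ ∃ P, Cx e K P a b ↔ Cov e K a b`.  Infinite places: complex ones: always trivial; a real place `v` with the embedding `φ`: the
completion is isomorphic to `ℝ` over `F` (`InfinitePlace.Completion.ringEquivRealOfIsReal`), and `RX φ e a b` is `Cov` over `ℝ`; every `φ : F →+* ℝ` belongs to a real place. -/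
def S_KSL : Prop := ∀ (F : Type) [Field F] [NumberField F] (e : Fin 3 → F), Rt e →
  ∀ (a b : F) (f : Coch (crv e)), a ≠ 0 → b ≠ 0 → Ks e a b f →
  (∀ v : HeightOneSpectrum (𝓞 F), LocTriv (crv e) (v.adicCompletion F) f ↔ AX v e a b) ∧
  ((∀ v : InfinitePlace F, LocTriv (crv e) v.Completion f) ↔ ∀ φ : F →+* ℝ, RX φ e a b)

/-- JOB CNT (uses `FT.S_KSA`, `FT.S_KSB`, `S_KSL`, `FT.S_MWR`, and what it needs of `S_KUA`, `S_KUB`, `S_KUC`; template: `Pool.Agent.Q121.FT.cnt`). The number of the elements of the Selmer group.  The same proof. -/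
def S_CNT : Prop := ∀ (F : Type) [Field F] [NumberField F] (e : Fin 3 → F), Rt e →
  ∀ N : ℕ, HasN2 (SR e) N → Finite {x : Sha (crv e) // (2 : ℕ) • x = 0} ∧
    N = 4 * 2 ^ Module.finrank ℤ (Pt (crv e) F) * Nat.card {x : Sha (crv e) // (2 : ℕ) • x = 0}

end Pool.Agent.Q283.FG
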