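import Pool.Agent.Q283.FG.Stm1
import Pool.Agent.Q283.FG.Stm2
import Pool.Agent.Q283.FG.Stm3

/-!
# Project FG (helper283): statements of the parts, the assembly
-/

set_option autoImplicit false

namespace Pool.Agent.Q283.FG

open NumberField IsDedekindDomain Filter Topology Finset WeierstrassCurve Module
open Pool.Agent.Q283.LQ (Sm Box Nest nS)
open Pool.Agent.Q7.LK
open Pool.Agent.Q283.FT (U2 om crv Rt twi df Cov HasN2 AX Gd LocP Dcl Ks)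
open Q44.JQ (lawc)
open scoped Classical

/-- JOB FUL (uses `S_LCP`, `S_GDU`, `S_GDR`, `S_RLC`, `LK.S_BAS`; template: `Pool.Agent.Q176.FT.ful`). The Selmer group and the conditions of the tables.  The same proof; real places: `S_RLC` (3) for `D / D0` and its inverse. -/
def S_FUL : Prop := ∀ (F : Type) [Field F] [NumberField F] (e : Fin 3 → F), Rt e →
  ∀ y : ℕ, (∀ v : HeightOneSpectrum (𝓞 F), ¬ Sm y v → Gd v e) → ∀ D0 D : F, D0 ≠ 0 → D ≠ 0 → Nr y (D / D0) → ∀ a b : F,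
    (SR (twi D e) a b ↔ CondP y (fun v => AX v (twi D0 e)) (fun φ => RX φ (twi D0 e)) e D a b)

/-- JOB FIT (template: `Pool.Agent.Q154.FT.fit`; `FT.S_FIT` is proved: `Pool.Agent.Q154.FT.fit`). Every `D` belongs to a tuple of primes. -/
def S_FIT : Prop := ∀ (F : Type) [Field F] [NumberField F] (y : ℕ) (D0 D : F), D0 ≠ 0 → D ≠ 0 → Nr y (D / D0) →
  ∃ (k : ℕ) (q : Fin k → HeightOneSpectrum (𝓞 F)), Function.Injective q ∧ (∀ i, ¬ Sm y (q i)) ∧ FR y D0 q D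

/-- JOB NEX (uses `LK.S_BAS`, `S_HIL`, `S_BSE`, `FT.S_GDS`, `S_GDU`, `S_LCP`, `S_RLC`; template: `Pool.Agent.Q154.FT.nex`). The Selmer group is finite.  The same proof, with the real places. -/
def S_NEX : Prop := ∀ (F : Type) [Field F] [NumberField F] (e : Fin 3 → F), Rt e → ∃ n : ℕ, HasN2 (SR e) (2 ^ n)

/-- JOB UNQ (uses `LK.S_BAS`; template: `Pool.Agent.Q190.EN.unq`, `Pool.Agent.Q153.EN.fits_sq`). Uniqueness of `D` modulo squares.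
Proof.  `D' / D` has even order outside the small primes (`FR`), is a square at the small places and positive; by `Bs.full` `D' / D * mon u c` is a square, so `Nr y (mon u c)` and `Bs.cls` gives `c = 0`. -/
def S_UNQ : Prop := ∀ (F : Type) [Field F] [NumberField F] (ζ : F), IsPrimitiveRoot ζ 2 → ∀ (y f : ℕ) (u r : Fin f → F)
  (π : HeightOneSpectrum (𝓞 F) → F) (g : (Fin f → ZMod 2) → (Fin f → ZMod 2) → ZMod 2), Bs ζ y f u r π g →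
  ∀ (D0 : F), D0 ≠ 0 → ∀ (k : ℕ) (q : Fin k → HeightOneSpectrum (𝓞 F)) (D D' : F), FR y D0 q D → FR y D0 q D' →
  ∃ s : F, s ≠ 0 ∧ D' = D * s ^ 2

/-- JOB LOK (uses `S_DJS`, `S_CLE`, `S_SBM`, `S_CGE`, `S_SNG`, `S_TRS`, `S_LCP`, `S_ISQ`, `S_IDE`, `S_VLR`, `S_RLC`, `S_RSQ`, `LK.S_BAS`; template: `Pool.Agent.Q265.FTL.lok`). The local data of a twist.
Proof.  As in FT.  `card`: `∑_(Sm y v) (dv 2 v + 2) + r1 = [F : ℚ] + 2 nS + r1 = 2 (r1 + r2 + nS) = 2 f` (`S_VLR`; `dv 2 v = 0` unless `Dp 2 v`, which implies `Sm y v`).  `ISQ`, `RSQ` for the roots `twi D0 e` (`D0²` is a square). -/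
def S_LOK : Prop := ∀ (F : Type) [Field F] [NumberField F] (ζ : F), IsPrimitiveRoot ζ 2 →
  ∀ (t : HeightOneSpectrum (𝓞 F) → F → F → ZMod 2) (s : (F →+* ℝ) → F → F → ZMod 2), Hb ζ t s →
  ∀ (y f : ℕ) (t₀ : Fin f) (u r : Fin f → F) (π : HeightOneSpectrum (𝓞 F) → F), Bs ζ y f u r π (gs t₀) →
  Frm t s y u r (gs t₀) → u t₀ = -1 →
  f = InfinitePlace.nrRealPlaces F + InfinitePlace.nrComplexPlaces F + nS F y →
  {v : HeightOneSpectrum (𝓞 F) | Sm y v}.Finite →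
  ∀ (e : Fin 3 → F) (c : Fin 3 → Fin f → ZMod 2), Rt e → Dcl u e c →
  ∀ (D0 : F) (ψ w : Fin f → ZMod 2), D0 ≠ 0 → Nr y (D0 * mon r ψ * mon u w) →
  ∃ 𝓛 : Submodule (ZMod 2) ((Fin f → U2) × (Fin f → U2)),
    Mem y u r (fun v => AX v (twi D0 e)) (fun φ => RX φ (twi D0 e)) 𝓛 ∧ (djS t₀ c w 𝓛).Ok ψ

/-- JOB DCE (uses `LK.S_BAS`; template: `Pool.Agent.Q53.FT.dce`). The classes of the differences.
Proof.  `-1 = u t₀`, so `-1 * mon u (Pi.single t₀ 1)` is a square; the class of `e i - e j` is `cc t₀ c i j`; `Bs.ind`. -/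
def S_DCE : Prop := ∀ (F : Type) [Field F] [NumberField F] (ζ : F), IsPrimitiveRoot ζ 2 →
  ∀ (y f : ℕ) (t₀ : Fin f) (u r : Fin f → F) (π : HeightOneSpectrum (𝓞 F) → F)
    (g : (Fin f → ZMod 2) → (Fin f → ZMod 2) → ZMod 2), Bs ζ y f u r π g → u t₀ = -1 →
  (∀ e : Fin 3 → F, Rt e → (∀ v : HeightOneSpectrum (𝓞 F), ¬ Sm y v → Gd v e) → ∃ c : Fin 3 → Fin f → ZMod 2, Dcl u e c) ∧
  (∀ (e : Fin 3 → F) (c : Fin 3 → Fin f → ZMod 2), Rt e → Dcl u e c → NoFour e → ¬ Exc e →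
    c 1 ≠ c 2 ∧ c 0 ≠ c 1 ∧ c 0 + c 2 ≠ Pi.single t₀ 1 ∧ ¬ (c 0 = c 2 ∧ c 1 + c 2 = Pi.single t₀ 1)) ∧
  ∀ (e e' : Fin 3 → F) (c c' : Fin 3 → Fin f → ZMod 2), Rt e → Rt e' → Dcl u e c → Dcl u e' c' → ¬ Matched e e' →
    ¬ ∃ σ : Equiv.Perm (Fin 3), ∀ i j, i ≠ j → cc t₀ c i j = cc t₀ c' (σ i) (σ j)

/-- JOB FLAW (uses `S_TBL`, `S_TPA`, `S_TUB`, `S_TRM`, `S_TRF`, `S_ADJ`, `S_BSE`, `S_G0`, `S_SXX`, `S_FUL`, `S_FIT`, `FT.S_GDS`, `S_LOK`, `S_DCE`, `S_CNT`; template: `Pool.Agent.Q265.FT.flaw`). **The joint law.**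
The same proof; `S_G0` in place of `FT.S_G0` (after `S_BSE`), `FR` in place of `Fits`, `SR` in place of `SC`. -/
def S_FLAW : Prop := ∀ (F : Type) [Field F] [NumberField F] (ζ : F), IsPrimitiveRoot ζ 2 → (∀ x : F, x ^ 2 ≠ -1) →
  ∀ (t : HeightOneSpectrum (𝓞 F) → F → F → ZMod 2) (s : (F →+* ℝ) → F → F → ZMod 2), Hb ζ t s →
  ∀ (κ : Type) [Fintype κ] (e : κ → Fin 3 → F), (∀ l, Rt (e l)) → (∀ l, NoFour (e l)) → (∀ l, ¬ Exc (e l)) →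
  (∀ l l', l ≠ l' → ¬ Matched (e l) (e l')) → ∃ y0 : ℕ, ∀ y, y0 ≤ y → ∀ D0 : F, D0 ≠ 0 → ∃ c : κ → ZMod 2,
  (∀ D : F, D ≠ 0 → Nr y (D / D0) → ∀ l, ∃ n : ℕ,
    HasN2 (SR (twi D (e l))) (2 ^ (n + 2)) ∧ ((n : ℕ) : ZMod 2) = c l) ∧
  (∀ (r : κ → ℕ) (ε : ℝ), 0 < ε → ∃ k0 : ℕ, ∀ k, k0 ≤ k → Nest k fun X =>
    (Box y X : Set (Fin k → HeightOneSpectrum (𝓞 F))).Finite ∧
    0 < ({q ∈ (Box y X : Set (Fin k → HeightOneSpectrum (𝓞 F))) | ∃ D, FR y D0 q D}.ncard : ℝ) ∧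
    |({q ∈ (Box y X : Set (Fin k → HeightOneSpectrum (𝓞 F))) | (∃ D, FR y D0 q D) ∧
          ∀ D, FR y D0 q D → ∀ l, HasN2 (SR (twi D (e l))) (2 ^ (r l + 2))}.ncard : ℝ) -
        (∏ l, lawc (c l) (r l)) *
          ({q ∈ (Box y X : Set (Fin k → HeightOneSpectrum (𝓞 F))) | ∃ D, FR y D0 q D}.ncard : ℝ)| ≤
      ε * ({q ∈ (Box y X : Set (Fin k → HeightOneSpectrum (𝓞 F))) | ∃ D, FR y D0 q D}.ncard : ℝ)) ∧
  (∀ (k : ℕ) (q : Fin k → HeightOneSpectrum (𝓞 F)) (D D' : F), FR y D0 q D → FR y D0 q D' →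
    ∃ s : F, s ≠ 0 ∧ D' = D * s ^ 2) ∧
  ∃ C : ℝ, ∀ l, ∀ k, 1 ≤ k → Nest k fun X =>
    ∀ (B : Finset (Fin k → HeightOneSpectrum (𝓞 F))) (N : (Fin k → HeightOneSpectrum (𝓞 F)) → ℕ),
      (∀ q ∈ B, q ∈ (Box y X : Set (Fin k → HeightOneSpectrum (𝓞 F)))) →
      (∀ q ∈ B, ∃ D, FR y D0 q D ∧ HasN2 (SR (twi D (e l))) (N q)) →
      ∑ q ∈ B, (N q : ℝ) ≤ C *
        ({q ∈ (Box y X : Set (Fin k → HeightOneSpectrum (𝓞 F))) | ∃ D, FR y D0 q D}.ncard : ℝ)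

end Pool.Agent.Q283.FG
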