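import Pool.Agent.Q259.FG.TRS
import Pool.Agent.Q283.FG.Stm4

/-! # Project FG of helper283: job DCE, the classes of the differences -/

set_option autoImplicit false

namespace Pool.Agent.Q283.FG.Dce

open NumberField IsDedekindDomain
open Pool.Agent.Q283.LQ (Sm)
open Pool.Agent.Q7.LK
open Pool.Agent.Q283.FT (U2 om crv Rt twi df Dcl)
open Pool.Agent.Q283.FG

theorem isPow_mul {F : Type} [Field F] {a b m : F} (hm : m ≠ 0) (ha : IsPow 2 (a * m)) (hb : IsPow 2 (b * m)) :
    IsPow 2 (a * b) := by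
  obtain ⟨x, hx⟩ := ha
  obtain ⟨y, hy⟩ := hb
  refine ⟨x * y / m, ?_⟩
  field_simp
  calc a * b * m ^ 2 = (a * m) * (b * m) := by ring
    _ = x ^ 2 * y ^ 2 := by rw [hx, hy]

section

variable {F : Type} [Field F] [NumberField F]

theorem zz {f : ℕ} (c : Fin f → ZMod 2) : c + c = 0 := by
  funext l
  exact CharTwo.add_self_eq_zero (c l)

/-- if the sum of two classes is that of `-1` then the product of the two numbers is `-1` times a square -/
theorem negp {f : ℕ} {u : Fin f → F} (hu : ∀ l, u l ≠ 0) {t₀ : Fin f} (h1 : u t₀ = -1) {d d' : F}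
    {c c' : Fin f → ZMod 2} (hd : IsPow 2 (d * mon u c)) (hd' : IsPow 2 (d' * mon u c'))
    (h : c + c' = Pi.single t₀ (1 : ZMod 2)) : IsPow 2 (-(d * d')) := by
  have hc : c' = c + Pi.single t₀ (1 : ZMod 2) := by
    rw [← h, ← add_assoc, zz, zero_add]
  have h2 := Pool.Agent.Q259.FG.neg_cl hu h1 hd
  rw [← hc] at h2
  have h3 := isPow_mul (Pool.Agent.Q259.FG.mon_ne0 hu c') h2 hd'
  rwa [neg_mul] at h3

theorem cl_df {f : ℕ} {u : Fin f → F} (hu : ∀ l, u l ≠ 0) {t₀ : Fin f} (h1 : u t₀ = -1) {e : Fin 3 → F}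
    {c : Fin 3 → Fin f → ZMod 2} (hc : Dcl u e c) (i j : Fin 3) (hij : i ≠ j) :
    IsPow 2 ((e i - e j) * mon u (cc t₀ c i j)) := by
  have hd : ∀ l, IsPow 2 (df e l * mon u (c l)) := hc
  have d0 : df e 0 = e 1 - e 2 := by unfold df; simp
  have d1 : df e 1 = e 0 - e 2 := by unfold df; simp
  have d2 : df e 2 = e 0 - e 1 := by unfold df; simp
  have n0 := Pool.Agent.Q259.FG.neg_cl hu h1 (hd 0)
  have n1 := Pool.Agent.Q259.FG.neg_cl hu h1 (hd 1)
  have n2 := Pool.Agent.Q259.FG.neg_cl hu h1 (hd 2)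
  have p0 := hd 0
  have p1 := hd 1
  have p2 := hd 2
  rw [d0, neg_sub] at n0
  rw [d1, neg_sub] at n1
  rw [d2, neg_sub] at n2
  rw [d0] at p0
  rw [d1] at p1
  rw [d2] at p2
  fin_cases i <;> fin_cases j
  · exact absurd rfl hij
  · simpa [cc] using p2
  · simpa [cc] using p1
  · simpa [cc] using n2
  · exact absurd rfl hij
  · simpa [cc] using p0
  · simpa [cc] using n1
  · simpa [cc] using n0
  · exact absurd rfl hij

end

theorem dce : S_DCE := by
  intro F _ _ ζ _ y f t₀ u r π g hB hm1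
  refine ⟨?_, ?_, ?_⟩
  · intro e he hg
    have h : ∀ l : Fin 3, ∃ c : Fin f → ZMod 2, IsPow 2 (df e l * mon u c) := by
      intro l
      refine hB.full _ (Pool.Agent.Q259.FG.df_ne he l) ?_
      intro v hv
      unfold vl
      rw [(hg v hv).unit l]
      simp
    choose c hc using h
    exact ⟨c, hc⟩
  · intro e c _ hc hn hx
    have hd : ∀ l, IsPow 2 (df e l * mon u (c l)) := hc
    have key : ∀ l l', c l = c l' → IsPow 2 (df e l * df e l') := by
      intro l l' hll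
      refine isPow_mul (Pool.Agent.Q259.FG.mon_ne0 hB.ue (c l)) (hd l) ?_
      rw [hll]
      exact hd l'
    have keyn : ∀ l l', c l + c l' = Pi.single t₀ (1 : ZMod 2) → IsPow 2 (-(df e l * df e l')) := by
      intro l l' hll
      exact negp hB.ue hm1 (hd l) (hd l') hll
    refine ⟨fun h => hn.1 (key 1 2 h), fun h => hn.2.2 (key 0 1 h), fun h => hn.2.1 (keyn 0 2 h), ?_⟩
    rintro ⟨h02, h12⟩
    refine hx ⟨keyn 1 2 h12, key 0 2 h02, keyn 0 1 ?_⟩
    rw [h02, add_comm]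
    exact h12
  · intro e e' c c' _ _ hc hc' hm
    rintro ⟨σ, hσ⟩
    refine hm ⟨σ, fun i j hij => ?_⟩
    have h1 := cl_df hB.ue hm1 hc i j hij
    have h2 := cl_df hB.ue hm1 hc' (σ i) (σ j) (fun h => hij (σ.injective h))
    rw [← hσ i j hij] at h2
    exact isPow_mul (Pool.Agent.Q259.FG.mon_ne0 hB.ue _) h1 h2

end Pool.Agent.Q283.FG.Dce
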