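import Pool.Agent.Q283.FG.Stm3
import Pool.Agent.Q176.FT.KUA

/-! # Project FG of helper283: job KUA, classes of points -/

set_option autoImplicit false

namespace Pool.Agent.Q283.FG.Kua

open WeierstrassCurve
open Pool.Agent.TH841.SH.D (Pt)
open Pool.Agent.Q283.FT (crv Rt df)
open Pool.Agent.Q283.FG
open Pool.Agent.Q176.FT.KUA (ne01 ne02 ne12 df_ne nons alg_ne comp_uniq comp_mul)

section
variable {F : Type} [Field F] {e : Fin 3 → F} {L : Type} [Field L] [Algebra F L]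

lemma exi (he : Rt e) (P : Pt (crv e) L) : ∃ a b : L, Cx e L P a b := by
  rcases P with _ | ⟨x, y, h⟩
  · exact ⟨1, 1, one_ne_zero, one_ne_zero, Or.inl ⟨rfl, IsSquare.one, IsSquare.one⟩⟩
  · have hA : ∃ a : L, a ≠ 0 ∧ ((x ≠ algebraMap F L (e 0) ∧ IsSquare (a * (x - algebraMap F L (e 0)))) ∨
        (x = algebraMap F L (e 0) ∧ IsSquare (a * algebraMap F L (df e 1 * df e 2)))) := by
      by_cases hx : x = algebraMap F L (e 0)
      · exact ⟨algebraMap F L (df e 1 * df e 2), (map_ne_zero _).2 (mul_ne_zero (df_ne he 1) (df_ne he 2)),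
          Or.inr ⟨hx, _, rfl⟩⟩
      · exact ⟨x - algebraMap F L (e 0), sub_ne_zero.2 hx, Or.inl ⟨hx, _, rfl⟩⟩
    have hB : ∃ b : L, b ≠ 0 ∧ ((x ≠ algebraMap F L (e 1) ∧ IsSquare (b * (x - algebraMap F L (e 1)))) ∨
        (x = algebraMap F L (e 1) ∧ IsSquare (b * algebraMap F L (-(df e 0 * df e 2))))) := by
      by_cases hx : x = algebraMap F L (e 1)
      · exact ⟨algebraMap F L (-(df e 0 * df e 2)),
          (map_ne_zero _).2 (neg_ne_zero.2 (mul_ne_zero (df_ne he 0) (df_ne he 2))), Or.inr ⟨hx, _, rfl⟩⟩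
      · exact ⟨x - algebraMap F L (e 1), sub_ne_zero.2 hx, Or.inl ⟨hx, _, rfl⟩⟩
    obtain ⟨a, ha, ha2⟩ := hA
    obtain ⟨b, hb, hb2⟩ := hB
    exact ⟨a, b, ha, hb, Or.inr ⟨x, y, h, rfl, ha2, hb2⟩⟩

lemma uniq (he : Rt e) (P : Pt (crv e) L) (a b a' b' : L) (h : Cx e L P a b) (h' : Cx e L P a' b') :
    IsSquare (a / a') ∧ IsSquare (b / b') := by
  obtain ⟨ha, hb, h⟩ := h
  obtain ⟨ha', hb', h'⟩ := h'
  rcases h with ⟨h0, h1, h2⟩ | ⟨x, y, hn, h0, h1, h2⟩ <;>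
    rcases h' with ⟨h0', h1', h2'⟩ | ⟨x', y', hn', h0', h1', h2'⟩
  · exact ⟨h1.div h1', h2.div h2'⟩
  · rw [h0] at h0'
    exact absurd h0'.symm (Affine.Point.some_ne_zero _)
  · rw [h0'] at h0
    exact absurd h0.symm (Affine.Point.some_ne_zero _)
  · rw [h0] at h0'
    have hx : x = x' ∧ y = y' := by
      have h0'' : (Affine.Point.some x y hn : ((crv e).baseChange L).toAffine.Point) = Affine.Point.some x' y' hn' := h0'
      rwa [Affine.Point.some.injEq] at h0''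
    have e1 : algebraMap F L (df e 1 * df e 2) ≠ 0 := (map_ne_zero _).2 (mul_ne_zero (df_ne he 1) (df_ne he 2))
    have e2 : algebraMap F L (-(df e 0 * df e 2)) ≠ 0 :=
      (map_ne_zero _).2 (neg_ne_zero.2 (mul_ne_zero (df_ne he 0) (df_ne he 2)))
    exact ⟨comp_uniq hx.1 e1 ha' h1 h1', comp_uniq hx.1 e2 hb' h2 h2'⟩

lemma muls (P : Pt (crv e) L) (a b s s' : L) (hs : s ≠ 0) (hs' : s' ≠ 0) (h : Cx e L P a b) :
    Cx e L P (a * s ^ 2) (b * s' ^ 2) := by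
  obtain ⟨ha, hb, h⟩ := h
  refine ⟨mul_ne_zero ha (pow_ne_zero 2 hs), mul_ne_zero hb (pow_ne_zero 2 hs'), ?_⟩
  rcases h with ⟨h0, h1, h2⟩ | ⟨x, y, hn, h0, h1, h2⟩
  · exact Or.inl ⟨h0, h1.mul (IsSquare.sq s), h2.mul (IsSquare.sq s')⟩
  · exact Or.inr ⟨x, y, hn, h0, comp_mul h1, comp_mul h2⟩

lemma sq_self (x y : F) : IsSquare (algebraMap F L (x - y) * (algebraMap F L x - algebraMap F L y)) := by
  rw [← map_sub]
  exact ⟨_, rfl⟩

lemma sq_neg' (x y : F) : IsSquare (algebraMap F L (-(x - y)) * (algebraMap F L y - algebraMap F L x)) := by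
  rw [neg_sub]
  exact sq_self y x

end

/-- Job KUA. -/
theorem kua : S_KUA := by
  intro F _ _ e he L _ _
  refine ⟨exi he, uniq he, muls, ⟨one_ne_zero, one_ne_zero, Or.inl ⟨rfl, IsSquare.one, IsSquare.one⟩⟩, fun l => ?_⟩
  refine ⟨nons he l, ?_⟩
  have d0 := df_ne he 0
  have d1 := df_ne he 1
  have d2 := df_ne he 2
  fin_cases l
  · show Cx e L (Affine.Point.some (algebraMap F L (e 0)) 0 (nons he 0)) (algebraMap F L (df e 1 * df e 2)) (algebraMap F L (df e 2))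
    exact ⟨(map_ne_zero _).2 (mul_ne_zero d1 d2), (map_ne_zero _).2 d2, Or.inr ⟨_, _, _, rfl, Or.inr ⟨rfl, _, rfl⟩,
      Or.inl ⟨alg_ne (ne01 he), sq_self _ _⟩⟩⟩
  · show Cx e L (Affine.Point.some (algebraMap F L (e 1)) 0 (nons he 1)) (algebraMap F L (-df e 2))
      (algebraMap F L (-(df e 0 * df e 2)))
    exact ⟨(map_ne_zero _).2 (neg_ne_zero.2 d2), (map_ne_zero _).2 (neg_ne_zero.2 (mul_ne_zero d0 d2)),
      Or.inr ⟨_, _, _, rfl, Or.inl ⟨alg_ne (ne01 he).symm, sq_neg' _ _⟩, Or.inr ⟨rfl, _, rfl⟩⟩⟩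
  · show Cx e L (Affine.Point.some (algebraMap F L (e 2)) 0 (nons he 2)) (algebraMap F L (-df e 1)) (algebraMap F L (-df e 0))
    exact ⟨(map_ne_zero _).2 (neg_ne_zero.2 d1), (map_ne_zero _).2 (neg_ne_zero.2 d0),
      Or.inr ⟨_, _, _, rfl, Or.inl ⟨alg_ne (ne02 he).symm, sq_neg' _ _⟩, Or.inl ⟨alg_ne (ne12 he).symm, sq_neg' _ _⟩⟩⟩

end Pool.Agent.Q283.FG.Kua
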