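import Pool.Agent.Q283.FG.MainA

/-!
# Project FG: the main theorem
-/

set_option autoImplicit false

namespace Pool.Agent.Q283.FG

open NumberField IsDedekindDomain Filter Topology Finset WeierstrassCurve Module
open Pool.Agent.Q283.LQ (Sm Box Nest nS)
open Pool.Agent.Q7.LK
open Pool.Agent.TH841.SH.D (Coch Pt act Gal IsCoc IsCob LocTriv)
open Pool.Agent.TH841.NF.D (Sha IsShaCoc)
open Pool.Agent.Q283.FT (U2 om crv Rt twi df Cov HasN2 AX Gd LocP Dcl Ks S2 rk2 par twi_rt hasN2_uniq hasN2_congr lpw_self mean_two nest_all marg)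
open Q44.JQ (lawc)
open scoped Classical

theorem fr_ne {F : Type} [Field F] [NumberField F] {y : ℕ} {D0 : F} {k : ℕ} {q : Fin k → HeightOneSpectrum (𝓞 F)} {D : F}
    (h : FR y D0 q D) : D ≠ 0 := h.1.ne

theorem sr_sq (hBAS : S_BAS) (hLCP : S_LCP) (hRLC : S_RLC) {F : Type} [Field F] [NumberField F] {e : Fin 3 → F}
    (he : Rt e) {D s : F} (hD : D ≠ 0) (hs : s ≠ 0) (a b : F) : SR (twi D e) a b → SR (twi (D * s ^ 2) e) a b := by
  have : Fact (Nat.Prime 2) := ⟨Nat.prime_two⟩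
  have h2 : twi (s ^ 2) (twi D e) = twi (D * s ^ 2) e := by
    funext j
    show s ^ 2 * (D * e j) = D * s ^ 2 * e j
    ring
  intro h
  refine ⟨fun v => ?_, fun φ => ?_⟩
  · have h1 := (hLCP F (twi D e) (twi_rt hD he) v).2.2.1 a b (s ^ 2)
      (Pool.Agent.Q265.LK.lpw_pow hBAS (p := 2) v hs) (h.1 v)
    rwa [h2] at h1
  · have h3 : 0 < φ (s ^ 2) := by
      rw [map_pow]
      have : φ s ≠ 0 := fun hc => hs ((map_eq_zero φ).1 hc)
      positivity
    have h1 := (hRLC F (twi D e) (twi_rt hD he) φ).2.2.1 a b (s ^ 2) h3 (h.2 φ)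
    rwa [h2] at h1

theorem gm_main (hBAS : S_BAS) (hHIL : S_HIL) (hLCP : S_LCP) (hRLC : S_RLC) (hNEX : S_NEX) (hCNT : S_CNT)
    (hTRV : Pool.Agent.Q283.FT.S_TRV) (hFLAW : S_FLAW) (hTOT : Pool.Agent.Q283.FT.S_TOT)
    (hMLC : Pool.Agent.Q283.FT.S_MLC) (F : Type) [Field F] [NumberField F] (hi : ∀ x : F, x ^ 2 ≠ -1) : GM F := by
  have : Fact (Nat.Prime 2) := ⟨Nat.prime_two⟩
  have hζ := EN.prim_neg F
  obtain ⟨t, s, ht⟩ := hHIL F (-1) hζ
  have hex : ∀ {e : Fin 3 → F}, Rt e → Finite (S2 e) ∧ HasN2 (SR e) (2 ^ (rk2 e + 2)) ∧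
      2 ^ finrank ℤ (Pt (crv e) F) * Nat.card (S2 e) = 2 ^ rk2 e :=
    fun he => exp_eq hNEX hCNT he
  refine ⟨fun e he => ⟨(hex he).1, (hex he).2.1, (hex he).2.2, rk2_zero hNEX hCNT hTRV he⟩, ?_⟩
  intro κ _ e he h4 hX hM
  have hval : ∀ {e : Fin 3 → F} {n : ℕ}, Rt e → (HasN2 (SR e) (2 ^ (n + 2)) ↔ rk2 e = n) := by
    intro e n he
    constructor
    · intro h
      have h1 := hasN2_uniq (fun a b h => sr_ne a b h) (hex he).2.1 h
      have h2 := Nat.pow_right_injective (le_refl 2) h1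
      omega
    · intro h
      have h1 := (hex he).2.1
      rwa [h] at h1
  obtain ⟨y1, hy1⟩ := hFLAW F (-1) hζ hi t s ht κ e he h4 hX hM
  refine ⟨y1, fun y hy D0 hD0 => ?_⟩
  obtain ⟨c, hc1, hc2, hun, C, hc3⟩ := hy1 y hy D0 hD0
  have hpar0 : ∀ D : F, D ≠ 0 → (∀ v : HeightOneSpectrum (𝓞 F), Sm y v → Lpw 2 v (D / D0)) →
      (∀ φ : F →+* ℝ, 0 < φ (D / D0)) → ∀ l, (rk2 (twi D (e l)) : ZMod 2) = c l := by
    intro D hD hDD hDR l
    obtain ⟨n, hn, hn2⟩ := hc1 D hD ⟨⟨div_ne_zero hD hD0, hDD⟩, hDR⟩ l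
    rw [(hval (twi_rt hD (he l))).1 hn]
    exact hn2
  have hparc : ∀ l, par D0 (e l) = c l := fun l => hpar0 D0 hD0 (fun v _ => lpw_self hBAS hD0 v)
    (fun φ => by rw [div_self hD0, map_one]; exact one_pos) l
  refine ⟨fun D hD hDD hDR l => (hpar0 D hD hDD hDR l).trans (hparc l).symm, C / 4, fun ε hε => ?_⟩
  -- the parameters
  have hmt : ∀ l : κ, ∃ (R : ℕ) (δ : ℝ), 0 < δ ∧ ∀ (α : Type) (T : Finset α) (r : α → ℕ),
      (∀ j ≤ R, |((T.filter (fun q => r q = j)).card : ℝ) - lawc (c l) j * (T.card : ℝ)| ≤ δ * (T.card : ℝ)) →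
      ∑ q ∈ T, (2 : ℝ) ^ r q ≤ C / 4 * (T.card : ℝ) →
      |∑ q ∈ T, (r q : ℝ) - (∑' j : ℕ, (j : ℝ) * lawc (c l) j) * (T.card : ℝ)| ≤ ε * (T.card : ℝ) :=
    fun l => mean_two hMLC (c l) (C / 4) ε hε
  choose R δ hδ hmt' using hmt
  obtain ⟨η, hη, hηε, hηδ⟩ : ∃ η : ℝ, 0 < η ∧ η ≤ ε ∧ ∀ l, η ≤ δ l := by
    refine ⟨1 / (∑ l, 1 / δ l + 1 / ε), ?_, ?_, fun l => ?_⟩
    · have : 0 ≤ ∑ l, 1 / δ l := sum_nonneg fun l _ => (by have := hδ l; positivity)
      positivity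
    · have h0 : 0 ≤ ∑ l, 1 / δ l := sum_nonneg fun l _ => (by have := hδ l; positivity)
      rw [div_le_iff₀ (by positivity)]
      have : ε * (∑ l, 1 / δ l + 1 / ε) = ε * ∑ l, 1 / δ l + 1 := by
        rw [mul_add, mul_one_div_cancel hε.ne']
      rw [this]
      nlinarith
    · have h0 : 0 ≤ ∑ l, 1 / δ l := sum_nonneg fun l _ => (by have := hδ l; positivity)
      have h1 : 1 / δ l ≤ ∑ l, 1 / δ l :=
        single_le_sum (f := fun l => 1 / δ l) (fun l _ => (by have := hδ l; positivity)) (mem_univ l)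
      have h2 := hδ l
      rw [div_le_iff₀ (by positivity)]
      have h3 : 1 ≤ δ l * ∑ l, 1 / δ l := by
        calc (1 : ℝ) = δ l * (1 / δ l) := by rw [mul_one_div_cancel h2.ne']
          _ ≤ δ l * ∑ l, 1 / δ l := mul_le_mul_of_nonneg_left h1 h2.le
      have h5 : 0 < 1 / ε := by positivity
      nlinarith [mul_pos h2 h5]
  obtain ⟨G, θ, hθ, htot⟩ := hTOT κ c η hη
  choose K hK using fun g : κ → ℕ => hc2 g θ hθ
  refine ⟨∑ g ∈ insert 0 G, K g + 1, fun k hk => ?_⟩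
  have hk1 : 1 ≤ k := by omega
  have hkg : ∀ g ∈ insert 0 G, K g ≤ k := fun g hg => by
    have := single_le_sum (f := K) (fun _ _ => Nat.zero_le _) hg
    omega
  have hn1 := nest_all (insert 0 G) k _ fun g hg => hK g k (hkg g hg)
  have hn2 := nest_all (univ : Finset κ) k _ fun l _ => hc3 l k hk1
  refine Pool.Agent.Q7.LK.nest_mono k _ _ (fun X hX => ?_) (Pool.Agent.Q283.LQ.nest_and' k _ _ hn1 hn2)
  obtain ⟨hX1, hX2⟩ := hX
  obtain ⟨hfin, hpos, -⟩ := hX1 0 (mem_insert_self _ _)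
  have hEfin : (Ens y D0 X).Finite := hfin.subset fun q hq => hq.1
  have hsq : ∀ (q : Fin k → HeightOneSpectrum (𝓞 F)) (D D' : F), FR y D0 q D →
      FR y D0 q D' → ∃ s, s ≠ 0 ∧ D' = D * s ^ 2 := fun q D D' hD hD' => hun k q D D' hD hD'
  have heq : ∀ (q : Fin k → HeightOneSpectrum (𝓞 F)) (D D' : F), FR y D0 q D →
      FR y D0 q D' → ∀ l, (∀ a b, SR (twi D (e l)) a b ↔ SR (twi D' (e l)) a b) ∧
        rk2 (twi D' (e l)) = rk2 (twi D (e l)) := by
    intro q D D' hD hD' l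
    obtain ⟨s, hs, h1⟩ := hsq q D D' hD hD'
    obtain ⟨s', hs', h2⟩ := hsq q D' D hD' hD
    have h3 : ∀ a b, SR (twi D (e l)) a b ↔ SR (twi D' (e l)) a b := by
      intro a b
      constructor
      · intro h
        rw [h1]
        exact sr_sq hBAS hLCP hRLC (he l) (fr_ne hD) hs a b h
      · intro h
        rw [h2]
        exact sr_sq hBAS hLCP hRLC (he l) (fr_ne hD') hs' a b h
    refine ⟨h3, ?_⟩
    have h5 := hasN2_congr h3 (hex (twi_rt (fr_ne hD) (he l))).2.1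
    exact (hval (twi_rt (fr_ne hD') (he l))).1 h5
  -- the finite set of the tuples and a choice of the `D`
  have key : ∀ (T : Finset (Fin k → HeightOneSpectrum (𝓞 F))) (D : (Fin k → HeightOneSpectrum (𝓞 F)) → F),
      (∀ q, q ∈ T ↔ q ∈ Ens y D0 X) → (∀ q ∈ T, FR y D0 q (D q)) →
      ∀ 𝒜 : Set (κ → ℕ), |((T.filter (fun q => (fun l => rk2 (twi (D q) (e l))) ∈ 𝒜)).card : ℝ) -
        (∑' g : κ → ℕ, if g ∈ 𝒜 then ∏ l, lawc (c l) (g l) else 0) * (T.card : ℝ)| ≤ η * (T.card : ℝ) := by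
    intro T D hT hD
    have hTE : (T : Set (Fin k → HeightOneSpectrum (𝓞 F))) = Ens y D0 X := by
      ext q
      rw [mem_coe]
      exact hT q
    have hcard : (Ens y D0 X).ncard = T.card := by rw [← hTE, Set.ncard_coe_finset]
    refine htot _ T (fun q l => rk2 (twi (D q) (e l))) fun g hg => ?_
    have h1 := (hX1 g (mem_insert_of_mem hg)).2.2
    have h2 : {q ∈ (Box y X : Set (Fin k → HeightOneSpectrum (𝓞 F))) | (∃ D, FR y D0 q D) ∧
        ∀ D, FR y D0 q D → ∀ l, HasN2 (SR (twi D (e l))) (2 ^ (g l + 2))} =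
        ((T.filter (fun q => (fun l => rk2 (twi (D q) (e l))) = g) : Finset _) :
          Set (Fin k → HeightOneSpectrum (𝓞 F))) := by
      ext q
      simp only [coe_filter, Set.mem_ofPred_eq]
      constructor
      · rintro ⟨hq, hd, hall⟩
        have hqT : q ∈ T := (hT q).2 ⟨hq, hd⟩
        refine ⟨hqT, funext fun l => ?_⟩
        exact (hval (twi_rt (fr_ne (hD q hqT)) (he l))).1 (hall (D q) (hD q hqT) l)
      · rintro ⟨hqT, hg'⟩
        have hq := (hT q).1 hqT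
        refine ⟨hq.1, hq.2, fun D' hD' l => ?_⟩
        rw [hval (twi_rt (fr_ne hD') (he l)), (heq q (D q) D' (hD q hqT) hD' l).2]
        exact congrFun hg' l
    have h3 : ({q ∈ (Box y X : Set (Fin k → HeightOneSpectrum (𝓞 F))) | ∃ D, FR y D0 q D} : Set _).ncard =
        T.card := hcard
    rw [h2, h3, Set.ncard_coe_finset] at h1
    exact h1
  -- the canonical choice
  have hcan : ∃ (T : Finset (Fin k → HeightOneSpectrum (𝓞 F))) (D : (Fin k → HeightOneSpectrum (𝓞 F)) → F),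
      (∀ q, q ∈ T ↔ q ∈ Ens y D0 X) ∧ ∀ q ∈ T, FR y D0 q (D q) := by
    have h1 : ∀ q, ∃ D : F, q ∈ Ens y D0 X → FR y D0 q D := by
      intro q
      by_cases hq : q ∈ Ens y D0 X
      · obtain ⟨D, hD⟩ := hq.2
        exact ⟨D, fun _ => hD⟩
      · exact ⟨0, fun h => absurd h hq⟩
    choose D hD using h1
    exact ⟨hEfin.toFinset, D, fun q => Set.Finite.mem_toFinset _, fun q hq =>
      hD q ((Set.Finite.mem_toFinset _).1 hq)⟩
  refine ⟨hEfin, hpos, fun q D D' hD hD' => ⟨?_, heq q D D' hD hD'⟩, fun 𝒜 => ?_, fun T D hT hD l => ?_⟩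
  · obtain ⟨s, hs, rfl⟩ := hsq q D D' hD hD'
    exact ⟨s, by rw [mul_div_cancel_left₀ _ (fr_ne hD)]⟩
  · obtain ⟨T, D, hT, hD⟩ := hcan
    have h1 := key T D hT hD 𝒜
    have hTE : (T : Set (Fin k → HeightOneSpectrum (𝓞 F))) = Ens y D0 X := by
      ext q
      rw [mem_coe]
      exact hT q
    have hcard : (Ens y D0 X).ncard = T.card := by rw [← hTE, Set.ncard_coe_finset]
    have h2 : {q ∈ Ens y D0 X | ∀ D, FR y D0 q D → (fun l => rk2 (twi D (e l))) ∈ 𝒜} =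
        ((T.filter (fun q => (fun l => rk2 (twi (D q) (e l))) ∈ 𝒜) : Finset _) :
          Set (Fin k → HeightOneSpectrum (𝓞 F))) := by
      ext q
      simp only [coe_filter, Set.mem_ofPred_eq]
      constructor
      · rintro ⟨hq, hall⟩
        exact ⟨(hT q).2 hq, hall (D q) (hD q ((hT q).2 hq))⟩
      · rintro ⟨hqT, hg'⟩
        refine ⟨(hT q).1 hqT, fun D' hD' => ?_⟩
        have h3 : (fun l => rk2 (twi D' (e l))) = fun l => rk2 (twi (D q) (e l)) :=
          funext fun l => (heq q (D q) D' (hD q hqT) hD' l).2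
        rw [h3]
        exact hg'
    rw [h2, hcard, Set.ncard_coe_finset]
    simp only [hparc]
    exact h1.trans (mul_le_mul_of_nonneg_right hηε (Nat.cast_nonneg _))
  · have hTE : (T : Set (Fin k → HeightOneSpectrum (𝓞 F))) = Ens y D0 X := by
      ext q
      rw [mem_coe]
      exact hT q
    have hcard : (Ens y D0 X).ncard = T.card := by rw [← hTE, Set.ncard_coe_finset]
    have hsum : ∑ q ∈ T, (2 : ℝ) ^ rk2 (twi (D q) (e l)) ≤ C / 4 * (T.card : ℝ) := by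
      have h1 := hX2 l (mem_univ l) T (fun q => 2 ^ (rk2 (twi (D q) (e l)) + 2)) (fun q hq => ((hT q).1 hq).1)
        (fun q hq => ⟨D q, hD q hq, (hex (twi_rt (fr_ne (hD q hq)) (he l))).2.1⟩)
      have h2 : ({q ∈ (Box y X : Set (Fin k → HeightOneSpectrum (𝓞 F))) | ∃ D, FR y D0 q D} : Set _).ncard =
        T.card := hcard
      rw [h2] at h1
      have h3 : ∑ q ∈ T, (((2 ^ (rk2 (twi (D q) (e l)) + 2) : ℕ)) : ℝ) =
          4 * ∑ q ∈ T, (2 : ℝ) ^ rk2 (twi (D q) (e l)) := by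
        rw [mul_sum]
        refine sum_congr rfl fun q _ => ?_
        push_cast
        ring
      rw [h3] at h1
      linarith
    refine ⟨?_, hsum⟩
    rw [hparc l]
    refine hmt' l _ T (fun q => rk2 (twi (D q) (e l))) (fun j _ => ?_) hsum
    have h1 := key T D hT hD {g | g l = j}
    refine le_trans (le_of_eq ?_) (h1.trans (mul_le_mul_of_nonneg_right (hηδ l) (Nat.cast_nonneg _)))
    have h2 : (∑' g : κ → ℕ, if g ∈ {g : κ → ℕ | g l = j} then ∏ l, lawc (c l) (g l) else 0) = lawc (c l) j := by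
      rw [← (marg c l j).tsum_eq]
      refine tsum_congr fun g => ?_
      by_cases h : g l = j
      · rw [if_pos h, if_pos (show g ∈ {g : κ → ℕ | g l = j} from h)]
      · rw [if_neg h, if_neg (show ¬ g ∈ {g : κ → ℕ | g l = j} from h)]
    have h3 : ((T.filter (fun q => rk2 (twi (D q) (e l)) = j)).card : ℝ) =
        ((T.filter (fun q => (fun l => rk2 (twi (D q) (e l))) ∈ {g : κ → ℕ | g l = j})).card : ℝ) := by
      congr 1
    rw [h3, ← h2]
    congr!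

theorem gmain (hBAS : S_BAS) (hHIL : S_HIL) (hLCP : S_LCP) (hRLC : S_RLC) (hNEX : S_NEX) (hCNT : S_CNT)
    (hTRV : Pool.Agent.Q283.FT.S_TRV) (hFLAW : S_FLAW) (hTOT : Pool.Agent.Q283.FT.S_TOT)
    (hMLC : Pool.Agent.Q283.FT.S_MLC) (hF : Pool.Agent.Q283.FT.S_FMAIN) : S_GMAIN := by
  intro F _ _
  by_cases h : ∃ i : F, i ^ 2 = -1
  · obtain ⟨i, hi⟩ := h
    exact gm_i hF hi
  · exact gm_main hBAS hHIL hLCP hRLC hNEX hCNT hTRV hFLAW hTOT hMLC F fun x hx => h ⟨x, hx⟩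

end Pool.Agent.Q283.FG
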