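import Pool.Agent.Q283.FT.All
import Pool.Agent.Q121.FG.BSE
import Pool.Agent.Q121.FG.GDR
import Pool.Agent.Q129.FG.APX
import Pool.Agent.Q129.FG.ISQ
import Pool.Agent.Q130.FG.AXP
import Pool.Agent.Q153.FG.G0
import Pool.Agent.Q153.FG.KSL
import Pool.Agent.Q153.FG.SBM
import Pool.Agent.Q154.FG.CNT
import Pool.Agent.Q154.FG.LCP
import Pool.Agent.Q181.FG.RLC
import Pool.Agent.Q182.FG.FLAW
import Pool.Agent.Q182.FG.ISO
import Pool.Agent.Q182.FG.KUB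
import Pool.Agent.Q182.FG.TRF
import Pool.Agent.Q184.FG.CGE
import Pool.Agent.Q187.FG.IRR
import Pool.Agent.Q190.FG.IDP
import Pool.Agent.Q190.FG.RSQ
import Pool.Agent.Q211.FG.STB
import Pool.Agent.Q211.FG.TRM
import Pool.Agent.Q214.FG.Cle
import Pool.Agent.Q214.FG.Djs
import Pool.Agent.Q214.FG.Gdu
import Pool.Agent.Q214.FG.Ide
import Pool.Agent.Q223.FG.HS1
import Pool.Agent.Q224.FG.FUL
import Pool.Agent.Q238.FG.Vlr
import Pool.Agent.Q247.FG.SH1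
import Pool.Agent.Q252.FG.ADJ
import Pool.Agent.Q252.FG.LOK
import Pool.Agent.Q252.FG.NEX
import Pool.Agent.Q252.FG.TBL
import Pool.Agent.Q252.FG.TUB
import Pool.Agent.Q277.FG.SNG
import Pool.Agent.Q277.FG.SXX
import Pool.Agent.Q285.FG.Unq
import Pool.Agent.Q31.FG.TBF
import Pool.Agent.Q65.FG.KUC
import Pool.Agent.Q68.FG.FIT
import Pool.Agent.Q68.FG.HSA
import Pool.Agent.Q94.FG.TPA
import Pool.Agent.Q91.FG.NST
import Pool.Agent.Q259.FG.TRS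
import Pool.Agent.Q283.FG.Kua
import Pool.Agent.Q283.FG.Dce
import Pool.Agent.Q13.FG.HIL
import Pool.Agent.Q283.FG.Main

/-!
# Project FG: all parts together
-/

set_option autoImplicit false

namespace Pool.Agent.Q283.FG

open Pool.Agent.Q7.LK (t_BAS t_CPL t_CHEB)
open Pool.Agent.Q283.EN (t_LIX)

theorem t_APX : S_APX := Pool.Agent.Q129.FG.apx
theorem t_HSA : S_HSA := Pool.Agent.Q68.FG.hsa t_APX t_BAS
theorem t_HS1 : S_HS1 := Pool.Agent.Q223.FG.hs1 t_BAS t_APX t_HSA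
theorem t_HIL : S_HIL := Pool.Agent.Q13.FG.hil t_BAS t_APX t_HS1
theorem t_BSE : S_BSE := Pool.Agent.Q121.FG.bse t_BAS t_CHEB Pool.Agent.Q283.LQ.t_BASE Pool.Agent.Q283.LQ.t_LOC
theorem t_G0 : S_G0 := Pool.Agent.Q153.FG.g0 t_BAS
theorem t_NST : S_NST := Pool.Agent.Q91.FG.nst t_BAS t_CHEB
theorem t_SH1 : S_SH1 := Pool.Agent.Q247.FG.sh1 t_BAS
theorem t_TRF : S_TRF := Pool.Agent.Q182.FG.trf t_NST t_SH1
theorem t_TRM : S_TRM := Pool.Agent.Q211.FG.trm t_TRF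
theorem t_DJS : S_DJS := Pool.Agent.Q214.FG.djs
theorem t_CLE : S_CLE := Pool.Agent.Q214.FG.cle
theorem t_IRR : S_IRR := Pool.Agent.Q187.FG.irr
theorem t_ISO : S_ISO := Pool.Agent.Q182.FG.iso
theorem t_ADJ : S_ADJ := Pool.Agent.Q252.FG.adj t_IRR t_ISO
theorem t_TBF : S_TBF := Pool.Agent.Q31.FG.tbf
theorem t_TBL : S_TBL := Pool.Agent.Q252.FG.tbl Pool.Agent.Q283.FT.t_LBS t_TBF
theorem t_TPA : S_TPA := Pool.Agent.Q94.FG.tpa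
theorem t_TUB : S_TUB := Pool.Agent.Q252.FG.tub
theorem t_SBM : S_SBM := Pool.Agent.Q153.FG.sbm t_BAS
theorem t_CGE : S_CGE := Pool.Agent.Q184.FG.cge t_BAS t_APX
theorem t_SNG : S_SNG := Pool.Agent.Q277.FG.sng t_DJS t_BAS
theorem t_TRS : S_TRS := Pool.Agent.Q259.FG.trs t_BAS
theorem t_SXX : S_SXX := Pool.Agent.Q277.FG.sxx t_BAS t_SH1
theorem t_KUA : S_KUA := Pool.Agent.Q283.FG.Kua.kua
theorem t_KUB : S_KUB := Pool.Agent.Q182.FG.kub t_KUA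
theorem t_KUC : S_KUC := Pool.Agent.Q65.FG.kuc
theorem t_AXP : S_AXP := Pool.Agent.Q130.FG.axp
theorem t_LCP : S_LCP := Pool.Agent.Q154.FG.lcp t_KUA t_KUB t_AXP t_BAS t_CPL
theorem t_RLC : S_RLC := Pool.Agent.Q181.FG.rlc
theorem t_RSQ : S_RSQ := Pool.Agent.Q190.FG.rsq
theorem t_STB : S_STB := Pool.Agent.Q211.FG.stb
theorem t_ISQ : S_ISQ := Pool.Agent.Q129.FG.isq t_KUA t_AXP t_STB t_BAS t_CPL
theorem t_VLR : S_VLR := Pool.Agent.Q238.FG.vlr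
theorem t_IDP : S_IDP := Pool.Agent.Q190.FG.idp t_LIX t_VLR
theorem t_IDE : S_IDE := Pool.Agent.Q214.FG.ide t_IDP t_KUA t_KUB t_KUC t_AXP t_LCP t_BAS t_CPL
theorem t_GDU : S_GDU := Pool.Agent.Q214.FG.gdu t_AXP t_LCP t_IDE t_BAS t_CPL
theorem t_GDR : S_GDR := Pool.Agent.Q121.FG.gdr t_LCP t_CPL
theorem t_KSL : S_KSL := Pool.Agent.Q153.FG.KS.ksl t_AXP
theorem t_CNT : S_CNT := Pool.Agent.Q154.FG.cnt Pool.Agent.Q283.FT.t_KSA Pool.Agent.Q283.FT.t_KSB t_KSL Pool.Agent.Q283.FT.t_MWR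
theorem t_FUL : S_FUL := Pool.Agent.Q224.FG.ful t_LCP t_GDU t_GDR t_RLC t_BAS
theorem t_FIT : S_FIT := Pool.Agent.Q68.FG.fit
theorem t_NEX : S_NEX := Pool.Agent.Q252.FG.nex t_BAS t_HIL t_BSE Pool.Agent.Q283.FT.t_GDS t_GDU t_LCP t_RLC
theorem t_UNQ : S_UNQ := Pool.Agent.Q285.FG.unq t_BAS
theorem t_LOK : S_LOK := Pool.Agent.Q252.FG.lok t_DJS t_CLE t_SBM t_CGE t_SNG t_TRS t_LCP t_ISQ t_IDE t_VLR t_RLC t_RSQ t_BAS
theorem t_DCE : S_DCE := Pool.Agent.Q283.FG.Dce.dce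
theorem t_FLAW : S_FLAW := Pool.Agent.Q182.FG.flaw t_TBL t_TPA t_TUB t_TRM t_TRF t_ADJ t_BSE t_G0 t_SXX t_FUL t_FIT Pool.Agent.Q283.FT.t_GDS t_LOK t_DCE t_CNT t_UNQ

theorem t_GMAIN : S_GMAIN := gmain t_BAS t_HIL t_LCP t_RLC t_NEX t_CNT Pool.Agent.Q283.FT.t_TRV t_FLAW
  Pool.Agent.Q283.FT.t_TOT Pool.Agent.Q283.FT.t_MLC Pool.Agent.Q283.FT.t_FMAIN

end Pool.Agent.Q283.FG
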