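import Pool.Agent.Q283.FT.Def2
import Pool.Agent.Q44.JQ.StmE

/-!
# Project FG (helper283): project FT for ALL number fields, definitions

`F` is any number field (real places, `-1` not a square).  Everything which is not defined here is as in project FT (`Pool/Agent/Q283/FT/Def2.lean`) and in helper44's
project JQ (`Pool/Agent/Q44/JQ/Stm.lean`, `StmB.lean`, `StmE.lean`; linear algebra with the sign).
-/

set_option autoImplicit false

namespace Pool.Agent.Q283.FG

open NumberField IsDedekindDomain Filter Topology Finset WeierstrassCurve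
open Pool.Agent.Q283.LQ (Sm Box Nest nS)
open Pool.Agent.Q7.LK
open Pool.Agent.TH841.SH.D (Coch Pt act Gal IsCoc IsCob LocTriv)
open Pool.Agent.TH841.NF.D (Sha IsShaCoc)
open Pool.Agent.Q283.FT (U2 om crv Rt twi df Cov HasN2 AX Gd LocP Dcl)

/-! ## Linear algebra -/

/-- the operators: `c l` is the class of the difference `df e l` (`df e 0 = e 1 - e 2`, `df e 1 = e 0 - e 2`, `df e 2 = e 0 - e 1`), `w` that of the twist, and
the unit vector at `t₀` is the class of `-1` -/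
noncomputable def opS {f : ℕ} (t₀ : Fin f) (c : Fin 3 → Fin f → ZMod 2) (w : Fin f → ZMod 2) :
    (Fin f → ZMod 2) →ₗ[ZMod 2] U2 →ₗ[ZMod 2] U2 :=
  LinearMap.mk₂ (ZMod 2)
    (fun φ x => (dot φ (c 2) * (x.1 + x.2) + dot φ (c 1) * x.2 + dot φ w * x.1 + φ t₀ * x.1,
      dot φ (c 2) * (x.1 + x.2) + dot φ (c 0) * x.1 + dot φ w * x.2 + φ t₀ * x.1))
    (fun φ φ' x => by
      have h : ∀ z : Fin f → ZMod 2, dot (φ + φ') z = dot φ z + dot φ' z := fun z => by
        simp only [dot, Pi.add_apply, add_mul, sum_add_distrib]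
      ext
      · simp only [h, Prod.fst_add, Pi.add_apply]; ring
      · simp only [h, Prod.snd_add, Pi.add_apply]; ring)
    (fun a φ x => by
      have h : ∀ z : Fin f → ZMod 2, dot (a • φ) z = a * dot φ z := fun z => by
        simp only [dot, Pi.smul_apply, smul_eq_mul, mul_sum, mul_assoc]
      ext
      · simp only [h, Prod.smul_fst, smul_eq_mul, Pi.smul_apply]; ring
      · simp only [h, Prod.smul_snd, smul_eq_mul, Pi.smul_apply]; ring)
    (fun φ x x' => by
      ext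
      · simp only [Prod.fst_add, Prod.snd_add]; ring
      · simp only [Prod.fst_add, Prod.snd_add]; ring)
    (fun a φ x => by
      ext
      · simp only [Prod.smul_fst, Prod.smul_snd, smul_eq_mul]; ring
      · simp only [Prod.smul_fst, Prod.smul_snd, smul_eq_mul]; ring)

/-- the data of a curve -/
noncomputable def djS {f : ℕ} (t₀ : Fin f) (c : Fin 3 → Fin f → ZMod 2) (w : Fin f → ZMod 2)
    (𝓛 : Submodule (ZMod 2) ((Fin f → U2) × (Fin f → U2))) : Q44.JQ.Dj (Fin f) U2 := ⟨om, opS t₀ c w, t₀, 𝓛⟩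

/-- the reciprocity term -/
def gs {f : ℕ} (t₀ : Fin f) (φ φ' : Fin f → ZMod 2) : ZMod 2 := φ t₀ * φ' t₀

/-- the symbols of a table: the symbol at the `p`-th prime of the generator of the `q`-th prime -/
def NG {f k : ℕ} (t₀ : Fin f) (τ : Tab 2 f k) (p q : Fin k) : ZMod 2 := Mt (gs t₀) τ q p

/-- the number of the solutions for a table -/
noncomputable def nSelG {f k : ℕ} (D : Q44.JQ.Dj (Fin f) U2) (τ : Tab 2 f k) : ℕ :=
  Nat.card (Q44.JQ.Sel D (NG D.s₀ τ) τ.1)

/-- the class of the difference `e i - e j` -/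
noncomputable def cc {f : ℕ} (t₀ : Fin f) (c : Fin 3 → Fin f → ZMod 2) (i j : Fin 3) : Fin f → ZMod 2 :=
  if i = 0 ∧ j = 1 then c 2 else if i = 0 ∧ j = 2 then c 1 else if i = 1 ∧ j = 2 then c 0
  else if i = 1 ∧ j = 0 then c 2 + Pi.single t₀ 1 else if i = 2 ∧ j = 0 then c 1 + Pi.single t₀ 1
  else c 0 + Pi.single t₀ 1

/-! ## Curves -/

/-- the class modulo squares of the point `P` of `crv e` over `L` is that of the pair `(a, b)`: that of `(x - e 0, x - e 1)` for
`P = (x, y)`, where `x - e i` has to be replaced by the product of the two other differences (with their signs) if it is `0` -/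
def Cx {F : Type} [Field F] (e : Fin 3 → F) (L : Type) [Field L] [Algebra F L] (P : Pt (crv e) L) (a b : L) : Prop :=
  a ≠ 0 ∧ b ≠ 0 ∧ ((P = 0 ∧ IsSquare a ∧ IsSquare b) ∨
    ∃ (x y : L) (h : ((crv e).baseChange L).toAffine.Nonsingular x y), P = Affine.Point.some x y h ∧
      ((x ≠ algebraMap F L (e 0) ∧ IsSquare (a * (x - algebraMap F L (e 0)))) ∨
        (x = algebraMap F L (e 0) ∧ IsSquare (a * algebraMap F L (df e 1 * df e 2)))) ∧
      ((x ≠ algebraMap F L (e 1) ∧ IsSquare (b * (x - algebraMap F L (e 1)))) ∨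
        (x = algebraMap F L (e 1) ∧ IsSquare (b * algebraMap F L (-(df e 0 * df e 2))))))

/-- the torsion classes: `T l` is the pair of the point `(e l, 0)` -/
def tc {F : Type} [Field F] (e : Fin 3 → F) (l : Fin 3) : F × F :=
  if l = 0 then (df e 1 * df e 2, df e 2) else if l = 1 then (-df e 2, -(df e 0 * df e 2)) else (-df e 1, -df e 0)

/-- there is no cyclic subgroup of order `4` which is defined over `F` -/
def NoFour {F : Type} [Field F] (e : Fin 3 → F) : Prop :=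
  ¬ IsPow 2 (df e 1 * df e 2) ∧ ¬ IsPow 2 (-(df e 0 * df e 2)) ∧ ¬ IsPow 2 (df e 0 * df e 1)

/-- the exceptional case: the three products of two differences at one root are all `-1` times squares -/
def Exc {F : Type} [Field F] (e : Fin 3 → F) : Prop :=
  IsPow 2 (-(df e 1 * df e 2)) ∧ IsPow 2 (df e 0 * df e 2) ∧ IsPow 2 (-(df e 0 * df e 1))

/-- the modules of the points of order dividing `4` are isomorphic -/
def Matched {F : Type} [Field F] (e e' : Fin 3 → F) : Prop :=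
  ∃ σ : Equiv.Perm (Fin 3), ∀ i j, i ≠ j → IsPow 2 ((e i - e j) * (e' (σ i) - e' (σ j)))

section F

variable {F : Type} [Field F] [NumberField F]

/-- a nonzero local square at all places above the rational primes `≤ y`, and positive at all real places -/
def Nr (y : ℕ) (b : F) : Prop := Nn 2 y b ∧ ∀ φ : F →+* ℝ, 0 < φ b

/-- bases of the units outside `S` modulo squares and of the classes modulo `Nr y`, and generators of the primes outside `S`
(`S` the primes above rational primes `≤ y`); compare `LK.Base` and `LQ.Base` -/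
structure Bs (ζ : F) (y f : ℕ) (u r : Fin f → F) (π : HeightOneSpectrum (𝓞 F) → F)
    (g : (Fin f → ZMod 2) → (Fin f → ZMod 2) → ZMod 2) : Prop where
  two : 2 ≤ y
  ue : ∀ l, u l ≠ 0
  re : ∀ l, r l ≠ 0
  uo : ∀ l v, ¬ Sm y v → vl 2 v (u l) = 0
  ind : ∀ c : Fin f → ZMod 2, IsPow 2 (mon u c) → c = 0
  full : ∀ a : F, a ≠ 0 → (∀ v : HeightOneSpectrum (𝓞 F), ¬ Sm y v → vl 2 v a = 0) →
    ∃ c : Fin f → ZMod 2, IsPow 2 (a * mon u c)
  po : ∀ q, ¬ Sm y q → π q ≠ 0 ∧ ∀ v, ¬ Sm y v → (v = q → vl 2 v (π q) = 1) ∧ (v ≠ q → vl 2 v (π q) = 0)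
  cls : ∀ b : F, b ≠ 0 → ∃! x : (Fin f → ZMod 2) × (Fin f → ZMod 2), Nr y (b * mon r x.1 * mon u x.2)
  pc : ∀ q, ¬ Sm y q → Nr y (π q * mon r (fun l => sy 2 ζ q (u l)))
  rcp : ∀ q q', ¬ Sm y q → ¬ Sm y q' → q ≠ q' →
    sy 2 ζ q' (π q) + sy 2 ζ q (π q') = g (fun l => sy 2 ζ q (u l)) (fun l => sy 2 ζ q' (u l))

/-- the Hilbert symbols `t v` at the finite places and symbols `s φ` at the real places with the product formula
(the `s φ` may vanish; only the properties listed here are used) -/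
structure Hb (ζ : F) (t : HeightOneSpectrum (𝓞 F) → F → F → ZMod 2) (s : (F →+* ℝ) → F → F → ZMod 2) : Prop where
  mul : ∀ v a b c, a ≠ 0 → b ≠ 0 → c ≠ 0 → t v (a * b) c = t v a c + t v b c
  sym : ∀ v a c, a ≠ 0 → c ≠ 0 → t v a c = t v c a
  pow : ∀ v a c, Lpw 2 v a → c ≠ 0 → t v a c = 0
  unr : ∀ v, ¬ Dp 2 v → ∀ c, c ≠ 0 → vl 2 v c = 0 → ∀ a, a ≠ 0 → t v a c = vl 2 v a * sy 2 ζ v c
  nrm : ∀ v a c x z, a ≠ 0 → c ≠ 0 → a = x ^ 2 - c * z ^ 2 → t v a c = 0
  rmul : ∀ φ a b c, a ≠ 0 → b ≠ 0 → c ≠ 0 → s φ (a * b) c = s φ a c + s φ b c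
  rsym : ∀ φ a c, a ≠ 0 → c ≠ 0 → s φ a c = s φ c a
  rpos : ∀ φ a c, 0 < φ a → c ≠ 0 → s φ a c = 0
  sum : ∀ a c, a ≠ 0 → c ≠ 0 → {v | t v a c ≠ 0}.Finite ∧ ∑ᶠ v, t v a c + ∑ᶠ φ, s φ a c = 0

/-- `D` has, outside the primes above the rational primes `≤ y`, odd order exactly at the `q i`; it is equal to `D0` up to
squares at the primes above the rational primes `≤ y` and has the sign of `D0` at the real places -/
def FR (y : ℕ) (D0 : F) {k : ℕ} (q : Fin k → HeightOneSpectrum (𝓞 F)) (D : F) : Prop :=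
  Fits 2 y D0 (fun _ => 1) q D ∧ ∀ φ : F →+* ℝ, 0 < φ (D / D0)

/-- the covering of `(a, b)` has a point over the reals, for the real place `φ` -/
def RX (φ : F →+* ℝ) (e : Fin 3 → F) (a b : F) : Prop :=
  a ≠ 0 ∧ b ≠ 0 ∧ ∃ (z : Fin 3 → ℝ) (w : ℝ), (z ≠ 0 ∨ w ≠ 0) ∧
    φ a * z 0 ^ 2 + φ (e 0) * w ^ 2 = φ b * z 1 ^ 2 + φ (e 1) * w ^ 2 ∧
    φ a * z 0 ^ 2 + φ (e 0) * w ^ 2 = φ (a * b) * z 2 ^ 2 + φ (e 2) * w ^ 2

/-- the pair `(a, b)` is, up to local squares at `v`, the class of a point of order dividing `2` -/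
def TX (v : HeightOneSpectrum (𝓞 F)) (e : Fin 3 → F) (a b : F) : Prop :=
  (Lpw 2 v a ∧ Lpw 2 v b) ∨ ∃ l : Fin 3, Lpw 2 v (a * (tc e l).1) ∧ Lpw 2 v (b * (tc e l).2)

/-- the pair `(a, b)` is in the Selmer group of `crv e` -/
def SR (e : Fin 3 → F) (a b : F) : Prop :=
  (∀ v : HeightOneSpectrum (𝓞 F), AX v e a b) ∧ ∀ φ : F →+* ℝ, RX φ e a b

/-- the conditions belonging to the twist by `D`, with given conditions `A v` at the small places and `R φ` at the real places -/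
structure CondP (y : ℕ) (A : HeightOneSpectrum (𝓞 F) → F → F → Prop) (R : (F →+* ℝ) → F → F → Prop) (e : Fin 3 → F)
    (D a b : F) : Prop where
  ne : a ≠ 0 ∧ b ≠ 0
  unr : ∀ v : HeightOneSpectrum (𝓞 F), ¬ Sm y v → vl 2 v D = 0 → vl 2 v a = 0 ∧ vl 2 v b = 0
  ram : ∀ v : HeightOneSpectrum (𝓞 F), ¬ Sm y v → vl 2 v D ≠ 0 → TX v (twi D e) a b
  loc : ∀ v : HeightOneSpectrum (𝓞 F), Sm y v → A v a b
  real : ∀ φ : F →+* ℝ, R φ a b

/-- groups `A v` of local classes at the small places and `R φ` at the real places -/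
structure LocR (y : ℕ) (A : HeightOneSpectrum (𝓞 F) → F → F → Prop) (R : (F →+* ℝ) → F → F → Prop) : Prop where
  fin : LocP y A
  rne : ∀ φ a b, R φ a b → a ≠ 0 ∧ b ≠ 0
  rmul : ∀ φ a b a' b', R φ a b → R φ a' b' → R φ (a * a') (b * b')
  rpos : ∀ φ a b, 0 < φ a → 0 < φ b → R φ a b

/-- the subspace `𝓛` consists of the classes (coordinates with respect to `u`, coordinates with respect to `r`) of the pairs which are in
`A v` for all small `v` and in `R φ` for all real places `φ` -/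
def Mem {f : ℕ} (y : ℕ) (u r : Fin f → F) (A : HeightOneSpectrum (𝓞 F) → F → F → Prop) (R : (F →+* ℝ) → F → F → Prop)
    (𝓛 : Submodule (ZMod 2) ((Fin f → U2) × (Fin f → U2))) : Prop :=
  ∀ (a b : F) (x x' : (Fin f → ZMod 2) × (Fin f → ZMod 2)), a ≠ 0 → b ≠ 0 →
    Nr y (a * mon r x.1 * mon u x.2) → Nr y (b * mon r x'.1 * mon u x'.2) →
    (((fun t => (x.2 t, x'.2 t)), fun t => (x.1 t, x'.1 t)) ∈ 𝓛 ↔
      (∀ v : HeightOneSpectrum (𝓞 F), Sm y v → A v a b) ∧ ∀ φ : F →+* ℝ, R φ a b)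

/-- the sum of the Hilbert symbols at the small places and at the real places is the form `x y' + x' y + x_(t₀) x'_(t₀)` on the classes -/
def Frm {f : ℕ} (t : HeightOneSpectrum (𝓞 F) → F → F → ZMod 2) (s : (F →+* ℝ) → F → F → ZMod 2) (y : ℕ) (u r : Fin f → F)
    (g : (Fin f → ZMod 2) → (Fin f → ZMod 2) → ZMod 2) : Prop :=
  ∀ (a b : F) (x x' : (Fin f → ZMod 2) × (Fin f → ZMod 2)), a ≠ 0 → b ≠ 0 →
    Nr y (a * mon r x.1 * mon u x.2) → Nr y (b * mon r x'.1 * mon u x'.2) →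
    ∑ᶠ v : {v : HeightOneSpectrum (𝓞 F) // Sm y v}, t v.1 a b + ∑ᶠ φ, s φ a b =
      dot x.1 x'.2 + dot x'.1 x.2 + g x.1 x'.1

end F

end Pool.Agent.Q283.FG
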