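import Pool.Agent.Q283.FG.Stm4
import Pool.Agent.Q283.FT.Main

/-!
# Project FG: the main theorem, the statement and general parts
-/

set_option autoImplicit false
set_option linter.unusedTactic false

namespace Pool.Agent.Q283.FG

open NumberField IsDedekindDomain Filter Topology Finset WeierstrassCurve Module
open Pool.Agent.Q283.LQ (Sm Box Nest nS)
open Pool.Agent.Q7.LK
open Pool.Agent.TH841.SH.D (Coch Pt act Gal IsCoc IsCob LocTriv)
open Pool.Agent.TH841.NF.D (Sha IsShaCoc)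
open Pool.Agent.Q283.FT (U2 om crv Rt twi df Cov HasN2 AX Gd LocP Dcl Ks S2 rk2 par)
open Q44.JQ (lawc)
open scoped Classical

/-- the tuples of primes to which a `D` belongs -/
def Ens {F : Type} [Field F] [NumberField F] (y : ℕ) (D0 : F) {k : ℕ} (X : Fin k → ℕ) :
    Set (Fin k → HeightOneSpectrum (𝓞 F)) :=
  {q ∈ (Box y X : Set (Fin k → HeightOneSpectrum (𝓞 F))) | ∃ D, FR y D0 q D}

/-- the main theorem for one number field -/
def GM (F : Type) [Field F] [NumberField F] : Prop :=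
  (∀ e : Fin 3 → F, Rt e → Finite (S2 e) ∧ HasN2 (SR e) (2 ^ (rk2 e + 2)) ∧
    2 ^ finrank ℤ (Pt (crv e) F) * Nat.card (S2 e) = 2 ^ rk2 e ∧
    (rk2 e = 0 ↔ Finite (Pt (crv e) F) ∧ ∀ (n : ℕ) (x : Sha (crv e)), 2 ^ n • x = 0 → x = 0)) ∧
  ∀ (κ : Type) [Fintype κ] (e : κ → Fin 3 → F), (∀ l, Rt (e l)) → (∀ l, NoFour (e l)) → (∀ l, ¬ Exc (e l)) →
  (∀ l l', l ≠ l' → ¬ Matched (e l) (e l')) → ∃ y0 : ℕ, ∀ y, y0 ≤ y → ∀ D0 : F, D0 ≠ 0 →
  (∀ D : F, D ≠ 0 → (∀ v : HeightOneSpectrum (𝓞 F), Sm y v → Lpw 2 v (D / D0)) → (∀ φ : F →+* ℝ, 0 < φ (D / D0)) →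
    ∀ l, (rk2 (twi D (e l)) : ZMod 2) = par D0 (e l)) ∧
  ∃ C : ℝ, ∀ ε : ℝ, 0 < ε → ∃ k0 : ℕ, ∀ k, k0 ≤ k → Nest k fun X =>
    (Ens y D0 X).Finite ∧ 0 < ((Ens y D0 X).ncard : ℝ) ∧
    (∀ (q : Fin k → HeightOneSpectrum (𝓞 F)) (D D' : F), FR y D0 q D → FR y D0 q D' →
      IsPow 2 (D' / D) ∧ ∀ l, (∀ a b, SR (twi D (e l)) a b ↔ SR (twi D' (e l)) a b) ∧
        rk2 (twi D' (e l)) = rk2 (twi D (e l))) ∧
    (∀ 𝒜 : Set (κ → ℕ), |({q ∈ Ens y D0 X | ∀ D, FR y D0 q D →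
        (fun l => rk2 (twi D (e l))) ∈ 𝒜}.ncard : ℝ) -
      (∑' g : κ → ℕ, if g ∈ 𝒜 then ∏ l, lawc (par D0 (e l)) (g l) else 0) * ((Ens y D0 X).ncard : ℝ)| ≤
        ε * ((Ens y D0 X).ncard : ℝ)) ∧
    ∀ (T : Finset (Fin k → HeightOneSpectrum (𝓞 F))) (D : (Fin k → HeightOneSpectrum (𝓞 F)) → F),
      (∀ q, q ∈ T ↔ q ∈ Ens y D0 X) → (∀ q ∈ T, FR y D0 q (D q)) → ∀ l,
      |∑ q ∈ T, (rk2 (twi (D q) (e l)) : ℝ) - (∑' j : ℕ, (j : ℝ) * lawc (par D0 (e l)) j) * (T.card : ℝ)| ≤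
        ε * (T.card : ℝ) ∧
      ∑ q ∈ T, (2 : ℝ) ^ rk2 (twi (D q) (e l)) ≤ C * (T.card : ℝ)

/-- **The main theorem of the project.** -/
def S_GMAIN : Prop := ∀ (F : Type) [Field F] [NumberField F], GM F

/-! ## Number fields which contain a square root of `-1` -/

section

variable {F : Type} [Field F] [NumberField F]

theorem no_real {i : F} (hi : i ^ 2 = -1) (φ : F →+* ℝ) : False := by
  have h := congrArg φ hi
  rw [map_pow, map_neg, map_one] at h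
  nlinarith [sq_nonneg (φ i)]

theorem fr_iff {i : F} (hi : i ^ 2 = -1) {y : ℕ} {D0 : F} {k : ℕ} {q : Fin k → HeightOneSpectrum (𝓞 F)} {D : F} :
    FR y D0 q D ↔ Fits 2 y D0 (fun _ => 1) q D :=
  ⟨fun h => h.1, fun h => ⟨h, fun φ => (no_real hi φ).elim⟩⟩

theorem sr_iff {i : F} (hi : i ^ 2 = -1) {e : Fin 3 → F} {a b : F} : SR e a b ↔ Pool.Agent.Q283.FT.SC e a b :=
  ⟨fun h => h.1, fun h => ⟨h, fun φ => (no_real hi φ).elim⟩⟩

omit [NumberField F] in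
theorem pow_neg_i {i : F} (hi : i ^ 2 = -1) {a : F} (h : IsPow 2 a) : IsPow 2 (-a) := by
  obtain ⟨x, rfl⟩ := h
  exact ⟨i * x, by rw [mul_pow, hi]; ring⟩

theorem ens_i {i : F} (hi : i ^ 2 = -1) (y : ℕ) (D0 : F) {k : ℕ} (X : Fin k → ℕ) :
    Ens y D0 X = Pool.Agent.Q283.FT.Ens y D0 X := by
  unfold Ens Pool.Agent.Q283.FT.Ens
  simp only [fr_iff hi]

omit [NumberField F] in
theorem noFour_i {i : F} (hi : i ^ 2 = -1) {e : Fin 3 → F} (h : NoFour e) : Pool.Agent.Q283.FT.NoFour e := by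
  obtain ⟨h1, h2, h3⟩ := h
  have h2' : ¬ IsPow 2 (df e 0 * df e 2) := fun hc => h2 (pow_neg_i hi hc)
  intro l l' hl hc
  have hcomm : ∀ a b : F, IsPow 2 (a * b) → IsPow 2 (b * a) := fun a b hab => by rwa [mul_comm]
  fin_cases l <;> fin_cases l' <;> first
    | exact hl rfl
    | exact h1 hc
    | exact h1 (hcomm _ _ hc)
    | exact h2' hc
    | exact h2' (hcomm _ _ hc)
    | exact h3 hc
    | exact h3 (hcomm _ _ hc)

omit [NumberField F] in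
theorem matched_i {i : F} (hi : i ^ 2 = -1) {e e' : Fin 3 → F} (h : Pool.Agent.Q283.FT.Matched e e') : Matched e e' := by
  obtain ⟨σ, hσ⟩ := h
  -- the difference of the roots with indices `j`, `k` is up to sign `df e l` for the third index `l`
  have hd : ∀ (E : Fin 3 → F) (j k l : Fin 3), j ≠ k → l ≠ j → l ≠ k → E j - E k = df E l ∨ E j - E k = -df E l := by
    intro E j k l hjk hlj hlk
    have h0 : df E 0 = E 1 - E 2 := rfl
    have h1 : df E 1 = E 0 - E 2 := rfl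
    have h2 : df E 2 = E 0 - E 1 := rfl
    fin_cases j <;> fin_cases k <;> fin_cases l <;> first
      | exact absurd rfl hjk
      | exact absurd rfl hlj
      | exact absurd rfl hlk
      | (left; simp [h0, h1, h2]; done)
      | (right; simp [h0, h1, h2]; done)
  have hth : ∀ j k : Fin 3, j ≠ k → ∃ l : Fin 3, l ≠ j ∧ l ≠ k := by decide
  refine ⟨σ, fun j k hjk => ?_⟩
  obtain ⟨l, hlj, hlk⟩ := hth j k hjk
  have h1 := hd e j k l hjk hlj hlk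
  have h2 := hd e' (σ j) (σ k) (σ l) (fun h => hjk (σ.injective h)) (fun h => hlj (σ.injective h))
    (fun h => hlk (σ.injective h))
  have h3 := hσ l
  have h4 := pow_neg_i hi h3
  rcases h1 with h1 | h1 <;> rcases h2 with h2 | h2 <;> rw [h1, h2]
  · exact h3
  · rwa [mul_neg]
  · rwa [neg_mul]
  · rwa [neg_mul_neg]

theorem hasN2_sr {i : F} (hi : i ^ 2 = -1) {e : Fin 3 → F} {N : ℕ} (h : HasN2 (Pool.Agent.Q283.FT.SC e) N) :
    HasN2 (SR e) N :=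
  Pool.Agent.Q283.FT.hasN2_congr (fun _ _ => (sr_iff hi).symm) h

theorem gm_i (h : Pool.Agent.Q283.FT.S_FMAIN) {i : F} (hi : i ^ 2 = -1) : GM F := by
  obtain ⟨h1, h2⟩ := h F i hi
  refine ⟨fun e he => ?_, fun κ _ e he h4 _ hM => ?_⟩
  · obtain ⟨h11, h12, h13, h14⟩ := h1 e he
    exact ⟨h11, hasN2_sr hi h12, h13, h14⟩
  · obtain ⟨y0, hy⟩ := h2 κ e he (fun l => noFour_i hi (h4 l)) (fun l l' hl hc => hM l l' hl (matched_i hi hc))
    refine ⟨y0, fun y hyy D0 hD0 => ?_⟩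
    obtain ⟨h3, C, h5⟩ := hy y hyy D0 hD0
    refine ⟨fun D hD hDD _ l => h3 D hD hDD l, C, fun ε hε => ?_⟩
    obtain ⟨k0, hk0⟩ := h5 ε hε
    refine ⟨k0, fun k hk => ?_⟩
    have h6 := hk0 k hk
    simp only [ens_i hi, fr_iff hi, sr_iff hi]
    exact h6

end

/-! ## The exponents -/

section

variable {F : Type} [Field F] [NumberField F]

theorem exp_eq (hNEX : S_NEX) (hCNT : S_CNT) {e : Fin 3 → F} (he : Rt e) : Finite (S2 e) ∧
    HasN2 (SR e) (2 ^ (rk2 e + 2)) ∧ 2 ^ finrank ℤ (Pt (crv e) F) * Nat.card (S2 e) = 2 ^ rk2 e := by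
  obtain ⟨n, hn⟩ := hNEX F e he
  obtain ⟨hfin, hN⟩ := hCNT F e he _ hn
  have hdvd : Nat.card (S2 e) ∣ 2 ^ n := by
    rw [hN]
    exact Dvd.intro_left _ rfl
  obtain ⟨m, -, hm⟩ := (Nat.dvd_prime_pow Nat.prime_two).1 hdvd
  have hlog : Nat.log 2 (Nat.card (S2 e)) = m := by
    rw [hm]
    exact Nat.log_pow (by norm_num) m
  have h2 : 2 ^ n = 2 ^ (rk2 e + 2) := by
    rw [hN]
    unfold rk2
    rw [hlog, hm, pow_add, pow_add]
    ring
  refine ⟨hfin, ?_, ?_⟩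
  · rw [← h2]
    exact hn
  · unfold rk2
    rw [hlog, hm, pow_add]

theorem rk2_zero (hNEX : S_NEX) (hCNT : S_CNT) (hTRV : Pool.Agent.Q283.FT.S_TRV) {e : Fin 3 → F} (he : Rt e) :
    rk2 e = 0 ↔ Finite (Pt (crv e) F) ∧ ∀ (n : ℕ) (x : Sha (crv e)), 2 ^ n • x = 0 → x = 0 := by
  obtain ⟨h1, -, h3⟩ := exp_eq hNEX hCNT he
  rw [← hTRV F e he h1, h3]
  constructor
  · intro h
    rw [h, pow_zero]
  · intro h
    by_contra hc
    have := Nat.one_lt_two_pow hc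
    omega

theorem sr_ne {e : Fin 3 → F} (a b : F) (h : SR e a b) : a ≠ 0 ∧ b ≠ 0 := Pool.Agent.Q283.FT.sc_ne a b h.1

end

end Pool.Agent.Q283.FG
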